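import Pool.Agent.Lib.HUP.Defs2

/-!
# Project HPG (MP_f686a1_nt, MP_0bf1d2_nt): linear polynomials, constant terms polynomials of small parameters

The system `f_i n + R_i(t)`, `i < k`, `n ≤ Z`, `t ≤ A U`, `U^D ~ Z`, `R_i` of degree `D` with fixed leading coefficient
`a_i ≠ 0` and arbitrary lower coefficients of size `A U^(D-j)`, the vectors `(f_i, a_i)` pairwise not proportional, and
a fixed linear coordinate `B`. It is dual to project HPC with one parameter. See `PROOF.md`.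
-/

open Finset Polynomial

namespace Pool.Agent.HPG

open Pool.Agent.Lib.H68T Pool.Agent.Lib.H18Q Pool.Agent.Lib.H59P Pool.Agent.Lib.H24P
open Pool.Agent.HUK (GG)
open Pool.Agent.HUP

noncomputable section

/-- The data: `f_i ≥ 1`, `a_i ≠ 0`, the vectors `(f_i, a_i)` pairwise not proportional. -/
structure GD {k : ℕ} (D : ℕ) (f a : Fin k → ℤ) : Prop where
  D1 : 1 ≤ D
  f1 : ∀ i, 1 ≤ f i
  a0 : ∀ i, a i ≠ 0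
  ind : ∀ i j, i ≠ j → f i * a j ≠ f j * a i

/-- The polynomials `f_i X`. -/
def lX {k : ℕ} (f : Fin k → ℤ) : Fin k → ℤ[X] := fun i => C (f i) * X

/-- The polynomials `R i` have degree `D` and leading coefficients `a i`. -/
def HD {k : ℕ} (D : ℕ) (a : Fin k → ℤ) (R : Fin k → ℤ[X]) : Prop := HasD (fun _ => D) a R

/-- The constant terms `R_i(t)` (used when they are not negative). -/
def gR {k : ℕ} (R : Fin k → ℤ[X]) (t : ℕ) : Fin k → ℕ := fun i => ((R i).eval (t : ℤ)).toNat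

/-- The values `R_i(t)` are between `1.51 M_i` and `1.68 M_i`. -/
def Mid {k : ℕ} (R : Fin k → ℤ[X]) (M : Fin k → ℕ) (t : ℕ) : Prop :=
  ∀ i, 151 * (M i : ℤ) ≤ 100 * (R i).eval (t : ℤ) ∧ 100 * (R i).eval (t : ℤ) < 168 * (M i : ℤ)

/-- The lower coefficients have size `A U^(D-j)`. -/
def Cb {k : ℕ} (D A U : ℕ) (R : Fin k → ℤ[X]) : Prop :=
  ∀ i, ∀ j ≤ D, |(R i).coeff j| ≤ A * (U : ℤ) ^ (D - j)

/-- The exceptional `t`: no fixed divisor, but few prime values. -/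
def Ex {k : ℕ} (Z : ℕ) (B : ℤ[X]) (f : Fin k → ℤ) (R : Fin k → ℤ[X]) (ε : ℝ) (t : ℕ) : Prop :=
  NoFix (sys B (lX f) (gR R t)) ∧ ((pcount Z B (lX f) (gR R t) : ℕ) : ℝ) < (Z : ℝ) ^ (1 - ε)

/-! ## Interfaces -/

/-- **Large sieve** for the family `R_i(t)`, `t` in an interval. -/
def FGR {k : ℕ} (D : ℕ) (f a : Fin k → ℤ) : Prop := ∃ (E : ℕ) (Cc cc : ℝ), FPar Cc cc ∧
  ∀ R : Fin k → ℤ[X], HD D a R → ∀ Qm t0 s : ℕ, 1 ≤ Qm → Qm ^ E ≤ s →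
    (∀ t ∈ Ico t0 (t0 + s), ∀ i, 0 ≤ (R i).eval (t : ℤ)) → FGood E Cc cc Qm (lX f) (Ico t0 (t0 + s)) (gR R)

/-- **Second moment over `t`**, one function with small `U^s` norm, weights `w n` arbitrary. -/
def SMR {k : ℕ} (D : ℕ) (f a : Fin k → ℤ) : Prop := ∀ (i0 : Fin k) (C0 : ℕ), ∃ s : ℕ, 2 ≤ s ∧ ∀ κ : ℝ, 0 < κ →
  ∃ δ : ℝ, 0 < δ ∧ ∃ X0 : ℕ, ∀ X : ℕ, X0 ≤ X → ∀ R : Fin k → ℤ[X], HD D a R → ∀ β : Fin k → ℤ,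
    ∀ n1 σ : ℕ, σ ≤ C0 * X ^ D → ∀ t0 N : ℕ, N ≤ C0 * X → ∀ w : ℕ → ℂ, (∀ n, ‖w n‖ ≤ 1) →
    ∀ F : Fin k → ℤ → ℂ, (∀ i m, ‖F i m‖ ≤ 1) →
    (∀ (i : Fin k) (m : ℤ), m ∉ Ico (-((C0 * X ^ D : ℕ) : ℤ)) ((C0 * X ^ D : ℕ) : ℤ) → F i m = 0) →
    GG (C0 * X ^ D) s (F i0) ≤ (X : ℝ) ^ ((D : ℝ) * (s + 1) - κ) →
    ∑ t ∈ Ico t0 (t0 + N), ‖∑ n ∈ Ico n1 (n1 + σ), w n * ∏ i, F i (f i * (n : ℤ) + ((R i).eval (t : ℤ) + β i))‖ ^ 2 ≤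
      (X : ℝ) ^ (1 + 2 * (D : ℝ) - δ)

/-- **Telescoping**: the primes may be replaced by their projections at level `Q`, mean square over `t`. -/
def S4R {k : ℕ} (D : ℕ) (f a : Fin k → ℤ) : Prop :=
  ∃ (K : ℝ) (L : ℕ), 1 ≤ K ∧ ∀ C : ℝ, ∃ τ c0 : ℝ, 0 < τ ∧ τ ≤ 1 ∧
    0 < c0 ∧ ∃ Q0 : ℕ, ∀ (Q X X1 : ℕ) (M : Fin k → ℕ) (R : Fin k → ℤ[X]) (t0 s : ℕ), Q0 ≤ Q → HD D a R →
    Rg K C Q X → Geo L Q X X1 (lX f) M → (X : ℝ) ≤ X1 * (Q : ℝ) ^ τ →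
    (∀ i, (M i : ℝ) ≤ X1 * (Q : ℝ) ^ τ) →
    (X : ℝ) ≤ (Q : ℝ) ^ τ * (s : ℝ) ^ D → (s : ℝ) ^ D ≤ (Q : ℝ) ^ τ * X →
    (∀ i, ∃ (B : ℤ → Ch → ℂ) (mb : Ch → ℝ), Cf Q (Ysc (M i)) B mb) →
    (∀ t ∈ Ico t0 (t0 + s), Mid R M t) →
    ∀ w : ℕ → ℝ, (∀ n ∈ Ico X1 (2 * X1), |w n| ≤ (Real.log X) ^ 2) →
    ∑ t ∈ Ico t0 (t0 + s), (∑ n ∈ Ico X1 (2 * X1), w n * ∏ i, lp ((lX f i).eval (n : ℤ) + gR R t i) -
      Rw Q X1 (lX f) M w (gR R t)) ^ 2 ≤ (X1 : ℝ) ^ 2 * s * (Q : ℝ) ^ (-c0)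

open Classical in
/-- **The core theorem** for given data. -/
def CoreR {k : ℕ} (D : ℕ) (f a : Fin k → ℤ) : Prop := ∀ (A : ℕ) (ε : ℝ), 0 < ε →
  ∃ η : ℝ, 0 < η ∧ ∃ Z0 : ℕ, ∀ Z U : ℕ, Z0 ≤ Z → U ^ D ≤ A * Z → Z ≤ A * U ^ D → ∀ B : ℤ[X], OKB A ε Z B →
    ∀ R : Fin k → ℤ[X], HD D a R → Cb D A U R →
    (((range (A * U + 1)).filter fun t : ℕ => (∀ i, 0 ≤ (R i).eval (t : ℤ)) ∧ Ex Z B f R ε t).card : ℝ) ≤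
      U * (Z : ℝ) ^ (-η)

end

end Pool.Agent.HPG
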