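import Pool.Agent.Lib.HPG.Defs

/-!
# Project HPG: definitions for the final theorems
-/

open Finset Polynomial

namespace Pool.Agent.HPG

noncomputable section

/-- Admissible tuples of integers. -/
def Adm1 {k : ℕ} (m : Fin k → ℤ) : Prop := ∀ l : ℕ, l.Prime → ∃ n : ℤ, ∀ i, ¬ (l : ℤ) ∣ n + m i

/-- Non-negative, admissible, fewer than `T^(1-ε)` prime translates up to `T`. -/
def Bad1 {k : ℕ} (T : ℕ) (ε : ℝ) (m : Fin k → ℤ) : Prop := (∀ i, 0 ≤ m i) ∧ Adm1 m ∧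
  (((Icc 1 T).filter fun n : ℕ => ∀ i, ((n : ℤ) + m i).toNat.Prime).card : ℝ) < (T : ℝ) ^ (1 - ε)

open Classical in
/-- The theorem for one parameter. -/
def OneP {k : ℕ} (D : ℕ) (c : Fin k → ℤ) : Prop := ∀ (A : ℕ) (ε : ℝ), 0 < ε → ∃ η : ℝ, 0 < η ∧ ∃ T0 : ℕ,
  ∀ T U : ℕ, T0 ≤ T → U ^ D ≤ T → T ≤ A * U ^ D → ∀ R : Fin k → ℤ[X],
    (∀ i, (R i).natDegree ≤ D ∧ (R i).coeff D = c i) → (∀ i, ∀ j < D, |(R i).coeff j| ≤ A * (U : ℤ) ^ (D - j)) →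
    (((range (U + 1)).filter fun t : ℕ => Bad1 T ε fun i => (R i).eval (t : ℤ)).card : ℝ) ≤ U * (T : ℝ) ^ (-η)

/-- The polynomial `R` on the line `t0 + u v`. -/
def ln {d : ℕ} (R : MvPolynomial (Fin d) ℤ) (t0 v : Fin d → ℕ) : ℤ[X] :=
  MvPolynomial.aeval (fun j => C (t0 j : ℤ) + C (v j : ℤ) * X) R

/-- `R` is `H` plus terms of degrees less than `D` with coefficients of size `A U^(D - degree)`. -/
def Pert {d : ℕ} (D A U : ℕ) (H R : MvPolynomial (Fin d) ℤ) : Prop :=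
  ∀ m : Fin d →₀ ℕ, (R - H).coeff m ≠ 0 → ∑ j, m j < D ∧ |(R - H).coeff m| ≤ A * (U : ℤ) ^ (D - ∑ j, m j)

end

end Pool.Agent.HPG
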