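import Pool.Agent.Lib.HPG.FDefs

/-!
# Project HPG, chunk G10 (S/M): the dummy coordinate `W n + 1`
-/

open Finset Polynomial

namespace Pool.Agent.HPG

open Pool.Agent.Lib.H24P

theorem g10_eval (W : ℕ) (n : ℤ) : (C (W : ℤ) * X + C 1 : ℤ[X]).eval n = W * n + 1 := by
  rw [eval_add, eval_mul, eval_C, eval_X, eval_C]

/-- Proof. Degree `1`, leading coefficient `W`. `n ≤ 2 (W n + 1)`; `W n + 1 ≤ A n + 1 ≤ Z + 1 ≤ A Z`; for `n ≤ n' < 2n`: `W n' + 1 < 3 (W n + 1)`. -/
theorem G10_okb (W A Z : ℕ) (ε : ℝ) (hW : 1 ≤ W) (hA : W ≤ A) (hA2 : 2 ≤ A) (hZ : 1 ≤ Z) :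
    OKB A ε Z (C (W : ℤ) * X + C 1) := by
  have hW0 : (W : ℤ) ≠ 0 := by
    have : 0 < W := hW
    exact_mod_cast this.ne'
  have hW1 : (1 : ℤ) ≤ W := by exact_mod_cast hW
  refine ⟨natDegree_linear hW0, ?_, ?_, ?_, ?_, ?_⟩
  · rw [leadingCoeff_linear hW0]
    simpa using hA
  · intro n _ _
    rw [g10_eval]
    have hn : (0 : ℤ) ≤ n := Int.natCast_nonneg n
    nlinarith
  · intro n _ h
    rw [g10_eval]
    have h1 : W * n ≤ A * n := Nat.mul_le_mul_right n hA
    have h2 : W * n + 1 ≤ A * Z := by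
      have h3 : 2 * Z ≤ A * Z := Nat.mul_le_mul_right Z hA2
      omega
    exact_mod_cast h2
  · intro n n' _ _ h1 h2
    rw [g10_eval, g10_eval]
    have h3 : W * n' ≤ W * (2 * n) := Nat.mul_le_mul_left W h2.le
    have h4 : W * (2 * n) = 2 * (W * n) := by ring
    have h5 : W * n' + 1 < 3 * (W * n + 1) := by omega
    exact_mod_cast h5
  · intro n n' _ _ h1 h2
    rw [g10_eval, g10_eval]
    have h3 : W * n ≤ W * n' := Nat.mul_le_mul_left W h1
    have h5 : W * n + 1 < 3 * (W * n' + 1) := by omega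
    exact_mod_cast h5

theorem g10_ran {k : ℕ} (h : Fin k → ℕ) (i : Fin k) (n : ℤ) : ran (lX fun _ : Fin k => 1) h i n = n + h i := by
  unfold ran lX
  rw [eval_mul, eval_C, eval_X, one_mul]

/-- Proof. `l ≤ k + 1`: `l ∣ W`, the coordinate `W n + 1` is never divisible by `l`, take `n` from `hadm`. `l > k + 1`: at most `k + 1` residues `n` modulo `l` are
zeros of one of the coordinates (`W n + 1`: at most one, none if `l ∣ W`; `n + h_i`: one), some residue is left. -/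
theorem G10_nofix {k : ℕ} (W : ℕ) (hW : ∀ l : ℕ, l.Prime → l ≤ k + 1 → l ∣ W) (h : Fin k → ℕ)
    (hadm : ∀ l : ℕ, l.Prime → ∃ n : ℤ, ∀ i, ¬ (l : ℤ) ∣ n + h i) :
    NoFix (sys (C (W : ℤ) * X + C 1) (lX fun _ : Fin k => 1) h) := by
  classical
  intro l hl
  by_cases hk : l ≤ k + 1
  · obtain ⟨n, hn⟩ := hadm l hl
    refine ⟨n, fun i => ?_⟩
    refine Fin.cases ?_ (fun i => ?_) i
    · show ¬ (l : ℤ) ∣ (C (W : ℤ) * X + C 1 : ℤ[X]).eval n
      rw [g10_eval]
      intro hd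
      have h1 : (l : ℤ) ∣ (W : ℤ) * n := Dvd.dvd.mul_right (by exact_mod_cast hW l hl hk) n
      have h2 : (l : ℤ) ∣ 1 := (dvd_add_right h1).1 hd
      have h3 : l ∣ 1 := by exact_mod_cast h2
      exact hl.one_lt.ne' (Nat.dvd_one.1 h3)
    · show ¬ (l : ℤ) ∣ ran (lX fun _ : Fin k => 1) h i n
      rw [g10_ran]
      exact hn i
  · haveI : Fact l.Prime := ⟨hl⟩
    let f : Option (Fin k) → ZMod l := fun o => match o with
      | none => -((W : ZMod l))⁻¹
      | some i => -((h i : ℕ) : ZMod l)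
    have hcard : (Finset.univ.image f).card < (Finset.univ : Finset (ZMod l)).card := by
      refine lt_of_le_of_lt Finset.card_image_le ?_
      rw [Finset.card_univ, Finset.card_univ, Fintype.card_option, Fintype.card_fin, ZMod.card]
      omega
    obtain ⟨x, -, hx⟩ := Finset.exists_mem_notMem_of_card_lt_card hcard
    have hx' : ∀ o, x ≠ f o := fun o ho => hx (Finset.mem_image.2 ⟨o, Finset.mem_univ _, ho.symm⟩)
    refine ⟨(x.val : ℤ), fun i => ?_⟩
    have hxv : (((x.val : ℕ) : ℤ) : ZMod l) = x := by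
      rw [Int.cast_natCast, ZMod.natCast_zmod_val]
    refine Fin.cases ?_ (fun i => ?_) i
    · show ¬ (l : ℤ) ∣ (C (W : ℤ) * X + C 1 : ℤ[X]).eval ((x.val : ℕ) : ℤ)
      rw [g10_eval, ← ZMod.intCast_zmod_eq_zero_iff_dvd, Int.cast_add, Int.cast_mul, hxv, Int.cast_natCast, Int.cast_one]
      intro h0
      have hW0 : (W : ZMod l) ≠ 0 := by
        intro h1
        rw [h1, zero_mul, zero_add] at h0
        exact one_ne_zero h0
      apply hx' none
      show x = -((W : ZMod l))⁻¹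
      have h2 : (W : ZMod l) * x = -1 := eq_neg_of_add_eq_zero_left h0
      calc x = ((W : ZMod l))⁻¹ * ((W : ZMod l) * x) := by rw [inv_mul_cancel_left₀ hW0]
        _ = -((W : ZMod l))⁻¹ := by rw [h2]; ring
    · show ¬ (l : ℤ) ∣ ran (lX fun _ : Fin k => 1) h i ((x.val : ℕ) : ℤ)
      rw [g10_ran, ← ZMod.intCast_zmod_eq_zero_iff_dvd, Int.cast_add, hxv, Int.cast_natCast]
      intro h0
      exact hx' (some i) (eq_neg_of_add_eq_zero_left h0)

end Pool.Agent.HPG
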