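import Pool.Agent.Lib.HPG.G5
import Pool.Agent.Lib.HPG.G10

/-!
# Project HPG, chunk G11 (M/L): one parameter, translates of polynomials with distinct top coefficients
-/

open Finset Polynomial

namespace Pool.Agent.HPG

open Pool.Agent.Lib.H24P

theorem g11_large (M y : ℝ) (hy : 0 < y) : ∃ N : ℕ, ∀ T : ℕ, N ≤ T → M ≤ (T : ℝ) ^ y := by
  have h := (tendsto_rpow_atTop hy).comp (tendsto_natCast_atTop_atTop (R := ℝ))
  have h2 := (Filter.tendsto_atTop.1 h M)
  obtain ⟨N, hN⟩ := Filter.eventually_atTop.1 h2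
  exact ⟨N, fun T hT => hN T hT⟩

/-- The shifted polynomials. -/
noncomputable def g11_R {k : ℕ} (D κ t0 : ℕ) (R : Fin k → ℤ[X]) : Fin k → ℤ[X] :=
  fun i => R i + C (κ : ℤ) * (X ^ D - C ((t0 : ℤ) ^ D))

theorem g11_eval {k : ℕ} (D κ t0 : ℕ) (R : Fin k → ℤ[X]) (i : Fin k) (t : ℤ) :
    (g11_R D κ t0 R i).eval t = (R i).eval t + κ * (t ^ D - (t0 : ℤ) ^ D) := by
  simp [g11_R]

theorem g11_coeff {k : ℕ} (D κ t0 : ℕ) (R : Fin k → ℤ[X]) (i : Fin k) (j : ℕ) :
    (g11_R D κ t0 R i).coeff j =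
      (R i).coeff j + κ * ((if j = D then 1 else 0) - (if j = 0 then (t0 : ℤ) ^ D else 0)) := by
  simp only [g11_R, coeff_add, coeff_C_mul, coeff_sub, coeff_X_pow, coeff_C]

theorem g11_HD {k : ℕ} (D : ℕ) (hD : 1 ≤ D) (κ t0 : ℕ) (c : Fin k → ℤ) (R : Fin k → ℤ[X])
    (hκ : ∀ i, 1 ≤ c i + κ) (hR : ∀ i, (R i).natDegree ≤ D ∧ (R i).coeff D = c i) :
    HD D (fun i => c i + κ) (g11_R D κ t0 R) := by
  intro i
  have h1 : (g11_R D κ t0 R i).coeff D = c i + κ := by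
    rw [g11_coeff, (hR i).2]
    have : D ≠ 0 := by omega
    simp [this]
  have h2 : (g11_R D κ t0 R i).natDegree ≤ D := by
    rw [natDegree_le_iff_coeff_eq_zero]
    intro N hN
    rw [g11_coeff]
    have e1 : (R i).coeff N = 0 := coeff_eq_zero_of_natDegree_lt (lt_of_le_of_lt (hR i).1 hN)
    have e2 : N ≠ D := by omega
    have e3 : N ≠ 0 := by omega
    simp [e1, e2, e3]
  have h3 : (g11_R D κ t0 R i).natDegree = D := by
    apply natDegree_eq_of_le_of_coeff_ne_zero h2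
    rw [h1]
    have := hκ i
    omega
  refine ⟨h3, ?_⟩
  rw [leadingCoeff, h3, h1]

theorem g11_Cb {k : ℕ} (D : ℕ) (hD : 1 ≤ D) (κ t0 A A' U : ℕ) (c : Fin k → ℤ) (R : Fin k → ℤ[X])
    (hκ : ∀ i, |c i| ≤ κ) (hR : ∀ i, (R i).natDegree ≤ D ∧ (R i).coeff D = c i)
    (hA : ∀ i, ∀ j < D, |(R i).coeff j| ≤ A * (U : ℤ) ^ (D - j)) (hA' : A + 2 * κ ≤ A') (ht : t0 ≤ U) :
    Cb D A' U (g11_R D κ t0 R) := by
  intro i j hj
  rw [g11_coeff]
  have hA'z : (A : ℤ) + 2 * κ ≤ A' := by exact_mod_cast hA'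
  have hκ0 : (0 : ℤ) ≤ κ := by positivity
  have hA0 : (0 : ℤ) ≤ A := by positivity
  rcases eq_or_lt_of_le hj with h | h
  · subst h
    have hj0 : j ≠ 0 := by omega
    rw [(hR i).2]
    simp only [hj0, if_true, if_false, Nat.sub_self, pow_zero, sub_zero, mul_one]
    have h1 := abs_le.1 (hκ i)
    rw [abs_le]
    constructor <;> linarith [h1.1, h1.2]
  · have h1 := hA i j h
    have hjD : j ≠ D := by omega
    by_cases hj0 : j = 0
    · subst hj0
      simp only [hjD, if_true, if_false, Nat.sub_zero] at h1 ⊢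
      have h2 : (t0 : ℤ) ^ D ≤ (U : ℤ) ^ D := pow_le_pow_left₀ (by positivity) (by exact_mod_cast ht) D
      have h3 : (0 : ℤ) ≤ (t0 : ℤ) ^ D := by positivity
      have h4 : (0 : ℤ) ≤ (U : ℤ) ^ D := by positivity
      have h5 := abs_le.1 h1
      have h6 : (κ : ℤ) * (t0 : ℤ) ^ D ≤ κ * (U : ℤ) ^ D := mul_le_mul_of_nonneg_left h2 hκ0
      have h7 : (0 : ℤ) ≤ κ * (t0 : ℤ) ^ D := mul_nonneg hκ0 h3
      have h8 : ((A : ℤ) + 2 * κ) * (U : ℤ) ^ D ≤ A' * (U : ℤ) ^ D := mul_le_mul_of_nonneg_right hA'z h4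
      have h9 : (0 : ℤ) ≤ κ * (U : ℤ) ^ D := mul_nonneg hκ0 h4
      rw [abs_le]
      constructor <;> nlinarith [h5.1, h5.2]
    · simp only [hjD, hj0, if_false, sub_zero, mul_zero, add_zero]
      refine le_trans h1 ?_
      apply mul_le_mul_of_nonneg_right _ (by positivity)
      linarith

/-- The variation of `κ t^D` on a cell. -/
theorem g11_var (D κ J U t0 t : ℕ) (hJ : J = 8 * κ * D) (hD : 1 ≤ D) (hκ : 1 ≤ κ) (h1 : t0 ≤ t)
    (h2 : t < t0 + (U / J + 1)) (h3 : t ≤ U) : 2 * (κ * (t ^ D - t0 ^ D)) ≤ U ^ D := by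
  have hJ0 : 0 < J := by
    rw [hJ]; positivity
  -- t^D - t0^D ≤ D U^(D-1) (t - t0)
  have key : t ^ D ≤ t0 ^ D + D * U ^ (D - 1) * (t - t0) := by
    obtain ⟨w, hw⟩ := Nat.exists_eq_add_of_le h1
    subst hw
    simp only [Nat.add_sub_cancel_left]
    obtain ⟨E, rfl⟩ : ∃ E, D = E + 1 := ⟨D - 1, by omega⟩
    simp only [Nat.add_sub_cancel]
    clear hJ hD
    induction E with
    | zero => simp
    | succ E ih =>
      have h5 : (t0 + w) ^ (E + 1 + 1) = (t0 + w) ^ (E + 1) * (t0 + w) := pow_succ _ _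
      have h6 : (t0 + w) ^ (E + 1) ≤ U ^ (E + 1) := Nat.pow_le_pow_left h3 _
      calc (t0 + w) ^ (E + 1 + 1) = (t0 + w) ^ (E + 1) * t0 + (t0 + w) ^ (E + 1) * w := by rw [h5]; ring
        _ ≤ (t0 ^ (E + 1) + (E + 1) * U ^ E * w) * t0 + U ^ (E + 1) * w :=
            Nat.add_le_add (Nat.mul_le_mul_right _ ih) (Nat.mul_le_mul_right _ h6)
        _ = t0 ^ (E + 1 + 1) + ((E + 1) * U ^ E * w * t0 + U ^ (E + 1) * w) := by ring
        _ ≤ t0 ^ (E + 1 + 1) + ((E + 1) * U ^ E * w * U + U ^ (E + 1) * w) := by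
            have : t0 ≤ U := by omega
            gcongr
        _ = t0 ^ (E + 1 + 1) + (E + 1 + 1) * U ^ (E + 1) * w := by ring
  have h4 : κ * (t ^ D - t0 ^ D) ≤ κ * (D * U ^ (D - 1) * (t - t0)) := by
    apply Nat.mul_le_mul_left
    omega
  have h5 : t - t0 ≤ U / J := by omega
  have h6 : J * (U / J) ≤ U := Nat.mul_div_le U J
  have h7 : U ^ D = U ^ (D - 1) * U := by
    conv_lhs => rw [show D = D - 1 + 1 by omega]
    exact pow_succ _ _
  calc 2 * (κ * (t ^ D - t0 ^ D)) ≤ 2 * (κ * (D * U ^ (D - 1) * (t - t0))) := Nat.mul_le_mul_left _ h4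
    _ ≤ 2 * (κ * (D * U ^ (D - 1) * (U / J))) := by gcongr
    _ ≤ 8 * (κ * (D * U ^ (D - 1) * (U / J))) := Nat.mul_le_mul_right _ (by norm_num)
    _ = U ^ (D - 1) * (J * (U / J)) := by rw [hJ]; ring
    _ ≤ U ^ (D - 1) * U := Nat.mul_le_mul_left _ h6
    _ = U ^ D := h7.symm

/-- One bad `t` of the cell is exceptional for the shifted polynomials. -/
theorem g11_bad {k : ℕ} (D κ t0 t T Z : ℕ) (ε ε' : ℝ) (R : Fin k → ℤ[X]) (ht0 : t0 ≤ t)
    (hZ : Z + κ * (t ^ D - t0 ^ D) ≤ T) (hTZ : (T : ℝ) ^ (1 - ε) ≤ (Z : ℝ) ^ (1 - ε'))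
    (hb : Bad1 T ε fun i => (R i).eval (t : ℤ)) :
    (∀ i, 0 ≤ (g11_R D κ t0 R i).eval (t : ℤ)) ∧
      Ex Z (C (((k + 1).factorial : ℕ) : ℤ) * X + C 1) (fun _ => 1) (g11_R D κ t0 R) ε' t := by
  obtain ⟨hpos, hadm, hcard⟩ := hb
  have hle : t0 ^ D ≤ t ^ D := Nat.pow_le_pow_left ht0 D
  set v : ℕ := κ * (t ^ D - t0 ^ D) with hv
  have hvz : (v : ℤ) = κ * ((t : ℤ) ^ D - (t0 : ℤ) ^ D) := by
    rw [hv]
    push_cast [Nat.cast_sub hle]
    ring
  have hev : ∀ i, (g11_R D κ t0 R i).eval (t : ℤ) = (R i).eval (t : ℤ) + v := by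
    intro i
    rw [g11_eval, hvz]
  have hge : ∀ i, 0 ≤ (g11_R D κ t0 R i).eval (t : ℤ) := by
    intro i
    rw [hev]
    have := hpos i
    have h2 : (0 : ℤ) ≤ v := by positivity
    linarith
  have hgR : ∀ i, ((gR (g11_R D κ t0 R) t i : ℕ) : ℤ) = (R i).eval (t : ℤ) + v := by
    intro i
    rw [gR, Int.toNat_of_nonneg (hge i), hev]
  refine ⟨hge, ?_, ?_⟩
  · apply G10_nofix
    · intro l hl hlk
      exact hl.dvd_factorial.2 hlk
    · intro l hl
      obtain ⟨n, hn⟩ := hadm l hl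
      refine ⟨n - v, fun i => ?_⟩
      rw [hgR i]
      have : n - (v : ℤ) + ((R i).eval (t : ℤ) + v) = n + (R i).eval (t : ℤ) := by ring
      rw [this]
      exact hn i
  · refine lt_of_le_of_lt ?_ (lt_of_lt_of_le hcard hTZ)
    have : pcount Z (C (((k + 1).factorial : ℕ) : ℤ) * X + C 1) (lX fun _ => 1) (gR (g11_R D κ t0 R) t) ≤
        ((Icc 1 T).filter fun n : ℕ => ∀ i, ((n : ℤ) + (R i).eval (t : ℤ)).toNat.Prime).card := by
      unfold pcount
      apply Finset.card_le_card_of_injOn (fun n => n + v)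
      · intro n hn
        simp only [coe_filter, Set.mem_ofPred_eq, mem_Icc] at hn ⊢
        obtain ⟨⟨h1, h2⟩, h3, h4⟩ := hn
        refine ⟨⟨by omega, by omega⟩, fun i => ?_⟩
        have h5 := h4 i
        rw [hgR i] at h5
        have h6 : (lX (fun _ : Fin k => (1 : ℤ)) i).eval (n : ℤ) = n := by
          simp [lX]
        rw [h6] at h5
        have h7 : (n : ℤ) + ((R i).eval (t : ℤ) + v) = ((n + v : ℕ) : ℤ) + (R i).eval (t : ℤ) := by
          push_cast; ring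
        rw [h7] at h5
        exact h5
      · intro a _ b _ hab
        simpa using hab
    exact_mod_cast this

/-- **G11.** Proof. `κ = 1 + ∑ |c_i|`, `a_i = c_i + κ ≥ 1`, distinct: `GD D (fun _ => 1) a`. `W = (k+1)!`, `B = W X + 1`, `Z = T/2`, `ε' = min (ε/2) (1/2)`. Cut
`range (U+1)` into `J = 8 κ D` (plus one) intervals `[t0, t0 + s')`, `s' = U/J + 1`: on it `0 ≤ κ (t^D - t0^D) ≤ κ D U^(D-1) s' ≤ T/2` (`U` large; `t ≤ U`).
For `t` in the interval put `R'_i = R_i + C κ * (X^D - C t0^D)`: `HD D a R'`, `Cb D A' U R'` (`A' = A + 2κ + W + 4`, also `≥` everything needed),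
`R'_i(t) ≥ R_i(t) ≥ 0`. If `t` is bad for `R` then `Ex Z B 1 R' ε' t`: `NoFix` by `G10_nofix` (`n + R'_i(t) = (n + κ (t^D - t0^D)) + R_i(t)`), and
`m ↦ m + κ (t^D - t0^D)` maps the set of `pcount` into the `n ≤ T` with all `n + R_i(t)` prime, fewer than `T^(1-ε) ≤ Z^(1-ε')`. `CoreR` for `A'`, `ε'`:
at most `U Z^(-η')` for each interval. `k = 0` is no exception. -/
theorem G11_one {k : ℕ} (D : ℕ) (hD : 1 ≤ D) (c : Fin k → ℤ) (hc : Function.Injective c)
    (hcore : ∀ f a : Fin k → ℤ, GD D f a → CoreR D f a) : OneP D c := by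
  classical
  intro A ε hε
  set κ : ℕ := 1 + ∑ i, (c i).natAbs with hκdef
  have hκ1 : 1 ≤ κ := by omega
  have habs : ∀ i, |c i| + 1 ≤ κ := by
    intro i
    have h1 : (c i).natAbs ≤ ∑ i, (c i).natAbs :=
      Finset.single_le_sum (f := fun i => (c i).natAbs) (fun _ _ => Nat.zero_le _) (Finset.mem_univ i)
    have h2 : |c i| = ((c i).natAbs : ℤ) := by simp
    rw [h2]
    have : (c i).natAbs + 1 ≤ κ := by omega
    exact_mod_cast this
  have hκa : ∀ i, 1 ≤ c i + κ := by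
    intro i
    have h1 := habs i
    have h2 := neg_abs_le (c i)
    linarith
  have hκb : ∀ i, |c i| ≤ κ := fun i => by linarith [habs i]
  have hGD : GD D (fun _ : Fin k => (1 : ℤ)) (fun i => c i + κ) := by
    refine ⟨hD, fun _ => le_rfl, fun i => ?_, fun i j hij => ?_⟩
    · have := hκa i
      omega
    · intro h
      simp only [one_mul, add_left_inj] at h
      exact hij (hc h.symm)
  set W : ℕ := (k + 1).factorial with hW
  have hW1 : 1 ≤ W := Nat.factorial_pos _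
  set A' : ℕ := A + 2 * κ + W + 4 with hA'
  set ε' : ℝ := min (ε / 2) (1 / 2) with hε'
  have hε'0 : 0 < ε' := by
    rw [hε']; exact lt_min (by linarith) (by norm_num)
  have hε'1 : ε' ≤ ε / 2 := min_le_left _ _
  have hε'2 : ε' ≤ 1 / 2 := min_le_right _ _
  obtain ⟨η', hη', Z0, hZ0⟩ := hcore _ _ hGD A' ε' hε'0
  set J : ℕ := 8 * κ * D with hJ
  have hJ0 : 0 < J := by rw [hJ]; positivity
  obtain ⟨N1, hN1⟩ := g11_large 3 (ε / 2) (by linarith)
  obtain ⟨N2, hN2⟩ := g11_large (J * 3 ^ η') (η' / 2) (by linarith)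
  refine ⟨η' / 2, by linarith, 2 * Z0 + 2 + N1 + N2 + A * J ^ D + 2, ?_⟩
  intro T U hT hUT hTU R hR hA
  have hT2 : 2 ≤ T := by omega
  have hUJ : J ≤ U := by
    by_contra hcon
    push Not at hcon
    have h1 : U ^ D ≤ J ^ D := Nat.pow_le_pow_left hcon.le _
    have h2 : A * U ^ D ≤ A * J ^ D := Nat.mul_le_mul_left _ h1
    omega
  set Z : ℕ := T / 2 with hZ
  have hZ1 : 1 ≤ Z := by omega
  have hZT3 : T ≤ 3 * Z := by omega
  have hTpos : (0 : ℝ) < T := by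
    have : 0 < T := by omega
    exact_mod_cast this
  have hZr : (T : ℝ) / 3 ≤ Z := by
    have : (T : ℝ) ≤ 3 * Z := by exact_mod_cast hZT3
    linarith
  have hTZ : (T : ℝ) ^ (1 - ε) ≤ (Z : ℝ) ^ (1 - ε') := by
    have h1 : ((T : ℝ) / 3) ^ (1 - ε') ≤ (Z : ℝ) ^ (1 - ε') :=
      Real.rpow_le_rpow (by positivity) hZr (by linarith)
    refine le_trans ?_ h1
    rw [Real.div_rpow hTpos.le (by norm_num), le_div_iff₀ (by positivity)]
    have h3 : (3 : ℝ) ^ (1 - ε') ≤ 3 := by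
      calc (3 : ℝ) ^ (1 - ε') ≤ (3 : ℝ) ^ (1 : ℝ) := Real.rpow_le_rpow_of_exponent_le (by norm_num) (by linarith)
        _ = 3 := Real.rpow_one _
    have h4 : (3 : ℝ) ≤ (T : ℝ) ^ (ε / 2) := hN1 T (by omega)
    have h5 : (1 : ℝ) ≤ T := by
      have : 1 ≤ T := by omega
      exact_mod_cast this
    calc (T : ℝ) ^ (1 - ε) * (3 : ℝ) ^ (1 - ε') ≤ (T : ℝ) ^ (1 - ε) * (T : ℝ) ^ (ε / 2) :=
          mul_le_mul_of_nonneg_left (h3.trans h4) (by positivity)
      _ = (T : ℝ) ^ (1 - ε / 2) := by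
          rw [← Real.rpow_add hTpos]; ring_nf
      _ ≤ (T : ℝ) ^ (1 - ε') := Real.rpow_le_rpow_of_exponent_le h5 (by linarith)
  have hOKB : OKB A' ε' Z (C (W : ℤ) * X + C 1) :=
    G10_okb W A' Z ε' hW1 (by omega) (by omega) hZ1
  have hUZ : U ^ D ≤ A' * Z := by
    calc U ^ D ≤ T := hUT
      _ ≤ 3 * Z := hZT3
      _ ≤ A' * Z := Nat.mul_le_mul_right _ (by omega)
  have hZU : Z ≤ A' * U ^ D := by
    calc Z ≤ T := by omega
      _ ≤ A * U ^ D := hTU
      _ ≤ A' * U ^ D := Nat.mul_le_mul_right _ (by omega)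
  set s' : ℕ := U / J + 1 with hs'
  -- the bad set
  set Bd : Finset ℕ := (range (U + 1)).filter fun t : ℕ => Bad1 T ε fun i => (R i).eval (t : ℤ) with hBd
  have hcov : Bd ⊆ (range J).biUnion fun m => Bd.filter fun t => m * s' ≤ t ∧ t < m * s' + s' := by
    intro t ht
    have htU : t ≤ U := by
      have := (mem_filter.1 ht).1
      rw [mem_range] at this
      omega
    rw [mem_biUnion]
    have hs0 : 0 < s' := Nat.succ_pos _
    refine ⟨t / s', ?_, ?_⟩
    · rw [mem_range, Nat.div_lt_iff_lt_mul hs0]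
      have h1 : U < J * s' := by
        rw [hs', mul_add, mul_one]
        have h2 := Nat.div_add_mod U J
        have h3 := Nat.mod_lt U hJ0
        omega
      omega
    · rw [mem_filter]
      refine ⟨ht, Nat.div_mul_le_self t s', ?_⟩
      have h1 := Nat.div_add_mod t s'
      have h2 := Nat.mod_lt t hs0
      have h3 : s' * (t / s') = t / s' * s' := mul_comm _ _
      omega
  have hcell : ∀ m ∈ range J,
      ((Bd.filter fun t => m * s' ≤ t ∧ t < m * s' + s').card : ℝ) ≤ U * (Z : ℝ) ^ (-η') := by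
    intro m _
    by_cases hem : (Bd.filter fun t => m * s' ≤ t ∧ t < m * s' + s').card = 0
    · rw [hem]
      push_cast
      positivity
    · have hne : (Bd.filter fun t => m * s' ≤ t ∧ t < m * s' + s').Nonempty :=
        Finset.card_pos.1 (Nat.pos_of_ne_zero hem)
      obtain ⟨t1, ht1⟩ := hne
      rw [mem_filter, hBd, mem_filter, mem_range] at ht1
      have ht0U : m * s' ≤ U := by omega
      have hmain := hZ0 Z U (by omega) hUZ hZU _ hOKB (g11_R D κ (m * s') R)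
        (g11_HD D hD κ (m * s') c R hκa hR)
        (g11_Cb D hD κ (m * s') A A' U c R hκb hR hA (by omega) ht0U)
      refine le_trans ?_ hmain
      have hsub : (Bd.filter fun t => m * s' ≤ t ∧ t < m * s' + s') ⊆
          ((range (A' * U + 1)).filter fun t : ℕ =>
            (∀ i, 0 ≤ (g11_R D κ (m * s') R i).eval (t : ℤ)) ∧
              Ex Z (C (W : ℤ) * X + C 1) (fun _ => 1) (g11_R D κ (m * s') R) ε' t) := by
        intro t ht
        rw [mem_filter, hBd, mem_filter, mem_range] at ht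
        obtain ⟨⟨h1, h2⟩, h3, h4⟩ := ht
        rw [mem_filter, mem_range]
        constructor
        · have : U ≤ A' * U := Nat.le_mul_of_pos_left U (by omega)
          omega
        · have hv := g11_var D κ J U (m * s') t hJ hD hκ1 h3 h4 (by omega)
          exact g11_bad D κ (m * s') t T Z ε ε' R h3 (by omega) hTZ h2
      exact_mod_cast Finset.card_le_card hsub
  have hsum : (Bd.card : ℝ) ≤ J * (U * (Z : ℝ) ^ (-η')) := by
    have h1 : Bd.card ≤ ∑ m ∈ range J, (Bd.filter fun t => m * s' ≤ t ∧ t < m * s' + s').card :=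
      le_trans (Finset.card_le_card hcov) Finset.card_biUnion_le
    have h2 : (Bd.card : ℝ) ≤ ∑ m ∈ range J, ((Bd.filter fun t => m * s' ≤ t ∧ t < m * s' + s').card : ℝ) := by
      exact_mod_cast h1
    refine le_trans h2 (le_trans (Finset.sum_le_sum hcell) ?_)
    rw [Finset.sum_const, card_range, nsmul_eq_mul]
  refine le_trans hsum ?_
  have hU0 : (0 : ℝ) ≤ U := by positivity
  have h1 : (Z : ℝ) ^ (-η') ≤ ((T : ℝ) / 3) ^ (-η') :=
    Real.rpow_le_rpow_of_nonpos (by positivity) hZr (by linarith)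
  have h2 : ((T : ℝ) / 3) ^ (-η') = 3 ^ η' * (T : ℝ) ^ (-η') := by
    rw [Real.div_rpow hTpos.le (by norm_num), Real.rpow_neg (by norm_num : (0 : ℝ) ≤ 3)]
    field_simp
  have h3 : (J : ℝ) * 3 ^ η' ≤ (T : ℝ) ^ (η' / 2) := hN2 T (by omega)
  calc (J : ℝ) * (U * (Z : ℝ) ^ (-η')) ≤ J * (U * (3 ^ η' * (T : ℝ) ^ (-η'))) := by
        rw [← h2]
        gcongr
    _ = U * ((J * 3 ^ η') * (T : ℝ) ^ (-η')) := by ring
    _ ≤ U * ((T : ℝ) ^ (η' / 2) * (T : ℝ) ^ (-η')) := by gcongr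
    _ = U * (T : ℝ) ^ (-(η' / 2)) := by
        rw [← Real.rpow_add hTpos]; ring_nf

end Pool.Agent.HPG
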