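import Pool.Agent.Lib.HPG.FDefs

/-!
# Project HPG, chunk G13 (M): polynomials on a line
-/

open Finset Polynomial

namespace Pool.Agent.HPG

/-- The monomial on the line, over `ℕ`. -/
noncomputable def g13_q {d : ℕ} (t0 v : Fin d → ℕ) (m : Fin d →₀ ℕ) : ℕ[X] := ∏ j, (C (t0 j) + C (v j) * X) ^ m j

theorem g13_ln {d : ℕ} (S : MvPolynomial (Fin d) ℤ) (t0 v : Fin d → ℕ) :
    ln S t0 v = ∑ m ∈ S.support, C (S.coeff m) * (g13_q t0 v m).map (Nat.castRingHom ℤ) := by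
  unfold ln
  rw [MvPolynomial.aeval_def, MvPolynomial.eval₂_eq']
  refine sum_congr rfl fun m _ => ?_
  congr 1
  unfold g13_q
  rw [Polynomial.map_prod]
  refine prod_congr rfl fun j _ => ?_
  rw [Polynomial.map_pow, Polynomial.map_add, Polynomial.map_mul, map_C, map_C, map_X]
  rfl

theorem g13_prod {R ι : Type*} [CommSemiring R] (s : Finset ι) (f : ι → R[X]) (n : ι → ℕ)
    (h : ∀ i ∈ s, (f i).natDegree ≤ n i) :
    (∏ i ∈ s, f i).natDegree ≤ ∑ i ∈ s, n i ∧ (∏ i ∈ s, f i).coeff (∑ i ∈ s, n i) = ∏ i ∈ s, (f i).coeff (n i) := by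
  classical
  revert h
  refine Finset.induction_on s ?_ ?_
  · intro _
    simp
  · intro a s ha ih h
    obtain ⟨h1, h2⟩ := ih fun i hi => h i (mem_insert_of_mem hi)
    have h3 := h a (mem_insert_self _ _)
    rw [prod_insert ha, sum_insert ha, prod_insert ha]
    refine ⟨natDegree_mul_le_of_le h3 h1, ?_⟩
    rw [coeff_mul_add_eq_of_natDegree_le h3 h1, h2]

theorem g13_qdeg {d : ℕ} (t0 v : Fin d → ℕ) (m : Fin d →₀ ℕ) :
    (g13_q t0 v m).natDegree ≤ ∑ j, m j ∧ (g13_q t0 v m).coeff (∑ j, m j) = ∏ j, v j ^ m j := by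
  have hlin : ∀ j, (C (t0 j) + C (v j) * X : ℕ[X]).natDegree ≤ 1 := fun j => by
    rw [add_comm]
    exact natDegree_linear_le
  have h1 := g13_prod univ (fun j => (C (t0 j) + C (v j) * X : ℕ[X]) ^ m j) (fun j => m j) (fun j _ => by
    have := natDegree_pow_le_of_le (m j) (hlin j)
    rwa [mul_one] at this)
  refine ⟨h1.1, h1.2.trans (prod_congr rfl fun j _ => ?_)⟩
  have h2 := coeff_pow_of_natDegree_le (m := m j) (hlin j)
  rw [mul_one] at h2
  rw [h2]
  simp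

theorem g13_qbd {d : ℕ} (t0 v : Fin d → ℕ) (m : Fin d →₀ ℕ) {U : ℕ} (hU : 1 ≤ U) (ht : ∀ j, t0 j ≤ U) (j : ℕ)
    (hj : j ≤ ∑ i, m i) : (g13_q t0 v m).coeff j ≤ (1 + ∑ i, v i) ^ (∑ i, m i) * U ^ (∑ i, m i - j) := by
  have h1 : (g13_q t0 v m).coeff j * U ^ j ≤ (g13_q t0 v m).eval U := by
    rw [eval_eq_sum_range]
    by_cases hd : j ≤ (g13_q t0 v m).natDegree
    · exact single_le_sum (f := fun i => (g13_q t0 v m).coeff i * U ^ i) (fun i _ => Nat.zero_le _)
        (mem_range.2 (Nat.lt_succ_of_le hd))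
    · rw [coeff_eq_zero_of_natDegree_lt (not_le.1 hd), zero_mul]
      exact Nat.zero_le _
  have h2 : (g13_q t0 v m).eval U ≤ ((1 + ∑ i, v i) * U) ^ (∑ i, m i) := by
    unfold g13_q
    rw [eval_prod, ← prod_pow_eq_pow_sum]
    refine prod_le_prod' fun i _ => ?_
    rw [eval_pow, eval_add, eval_mul, eval_C, eval_C, eval_X]
    refine Nat.pow_le_pow_left ?_ _
    have h3 : v i ≤ ∑ i, v i := single_le_sum (f := v) (fun i _ => Nat.zero_le _) (mem_univ i)
    have h4 := ht i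
    nlinarith
  have h5 : (g13_q t0 v m).coeff j * U ^ j ≤ ((1 + ∑ i, v i) ^ (∑ i, m i) * U ^ (∑ i, m i - j)) * U ^ j := by
    refine (h1.trans h2).trans (le_of_eq ?_)
    rw [mul_pow, mul_assoc, ← pow_add, Nat.sub_add_cancel hj]
  exact Nat.le_of_mul_le_mul_right h5 (pow_pos hU j)

theorem g13_hom {d D : ℕ} {H : MvPolynomial (Fin d) ℤ} (hH : H.IsHomogeneous D) {m : Fin d →₀ ℕ} (hm : H.coeff m ≠ 0) :
    ∑ j, m j = D := by
  have h1 := hH hm
  rw [Finsupp.weight_apply, Finsupp.sum_fintype _ _ (fun _ => by simp)] at h1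
  simpa using h1

theorem g13_coeffC {d : ℕ} (t0 v : Fin d → ℕ) (m : Fin d →₀ ℕ) (c : ℤ) (j : ℕ) :
    (C c * (g13_q t0 v m).map (Nat.castRingHom ℤ)).coeff j = c * ((g13_q t0 v m).coeff j : ℤ) := by
  rw [coeff_C_mul, coeff_map]
  rfl

/-- Polynomials with monomials of degree at most `D`. -/
theorem g13_sum {d D : ℕ} (S : MvPolynomial (Fin d) ℤ) (hS : ∀ m, S.coeff m ≠ 0 → ∑ j, m j ≤ D) (t0 v : Fin d → ℕ) :
    (ln S t0 v).natDegree ≤ D ∧
      (ln S t0 v).coeff D = ∑ m ∈ S.support, if ∑ j, m j = D then S.coeff m * ∏ j, (v j : ℤ) ^ m j else 0 := by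
  rw [g13_ln]
  constructor
  · refine natDegree_sum_le_of_forall_le _ _ fun m hm => ?_
    refine (natDegree_C_mul_le _ _).trans ((natDegree_map_le).trans ((g13_qdeg t0 v m).1.trans ?_))
    exact hS m (MvPolynomial.mem_support_iff.1 hm)
  · rw [finsetSum_coeff]
    refine sum_congr rfl fun m hm => ?_
    rw [g13_coeffC]
    split_ifs with h
    · have h1 := (g13_qdeg t0 v m).2
      rw [h] at h1
      rw [h1]
      push_cast
      rfl
    · have h1 := hS m (MvPolynomial.mem_support_iff.1 hm)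
      have h2 : (g13_q t0 v m).natDegree < D := lt_of_le_of_lt (g13_qdeg t0 v m).1 (lt_of_le_of_ne h1 h)
      rw [coeff_eq_zero_of_natDegree_lt h2]
      simp

theorem G13_eval {d : ℕ} (R : MvPolynomial (Fin d) ℤ) (t0 v : Fin d → ℕ) (u : ℕ) :
    (ln R t0 v).eval (u : ℤ) = MvPolynomial.eval (fun j => ((t0 j + u * v j : ℕ) : ℤ)) R := by
  unfold ln
  have h1 := MvPolynomial.map_aeval (fun j => C (t0 j : ℤ) + C (v j : ℤ) * X) (evalRingHom (u : ℤ)) R
  rw [coe_evalRingHom] at h1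
  rw [h1]
  have h2 : (evalRingHom (u : ℤ)).comp (algebraMap ℤ ℤ[X]) = RingHom.id ℤ := RingHom.ext_int _ _
  rw [h2]
  show MvPolynomial.eval _ R = _
  congr 1
  refine congrArg _ (funext fun j => ?_)
  rw [eval_add, eval_mul, eval_C, eval_C, eval_X]
  push_cast
  ring

/-- Proof. `ln R = ln H + ln (R - H)`. A monomial `c ∏ x_j^(m_j)` becomes `c ∏ (t0_j + v_j X)^(m_j)`: degree at most `|m|`, coefficient of `X^|m|` equal to
`c ∏ v_j^(m_j)`; so only the monomials of degree `D` contribute to the coefficient of `X^D`, and they are those of `H` (homogeneous). -/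
theorem G13_top {d D A U : ℕ} (H R : MvPolynomial (Fin d) ℤ) (hH : H.IsHomogeneous D) (hR : Pert D A U H R)
    (t0 v : Fin d → ℕ) :
    (ln R t0 v).natDegree ≤ D ∧ (ln R t0 v).coeff D = MvPolynomial.eval (fun j => (v j : ℤ)) H := by
  have hR1 : ∀ m, (R - H).coeff m ≠ 0 → ∑ j, m j ≤ D := fun m hm => (hR m hm).1.le
  have hH1 : ∀ m, H.coeff m ≠ 0 → ∑ j, m j ≤ D := fun m hm => (g13_hom hH hm).le
  have hadd : ln R t0 v = ln H t0 v + ln (R - H) t0 v := by
    unfold ln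
    rw [← map_add, add_sub_cancel]
  obtain ⟨h1, h2⟩ := g13_sum H hH1 t0 v
  obtain ⟨h3, h4⟩ := g13_sum (R - H) hR1 t0 v
  rw [hadd]
  refine ⟨natDegree_add_le_of_degree_le h1 h3, ?_⟩
  rw [coeff_add, h2, h4]
  have h5 : (∑ m ∈ (R - H).support, if ∑ j, m j = D then (R - H).coeff m * ∏ j, (v j : ℤ) ^ m j else 0) = 0 := by
    refine sum_eq_zero fun m hm => ?_
    rw [if_neg]
    exact (hR m (MvPolynomial.mem_support_iff.1 hm)).1.ne
  rw [h5, add_zero, MvPolynomial.eval_eq']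
  refine sum_congr rfl fun m hm => ?_
  rw [if_pos (g13_hom hH (MvPolynomial.mem_support_iff.1 hm))]

/-- Proof. For `t0 ≤ U` the coefficient of `X^j` in `∏ (t0_i + v_i X)^(m_i)` is at most `2^|m| Vm^|m| U^(|m| - j)`, `Vm = 1 + ∑ v_i` (induction, or evaluate the
polynomial `∏ (U + v_i X)^(m_i)` at `U`: all coefficients are non-negative and `coeff_j U^j ≤ (U (1 + Vm))^|m|`). There are at most `(D+1)^d` monomials of degree
`≤ D`; coefficients of `R`: at most `A U^(D - |m|)` for `|m| < D`, at most `AH` for those of `H`. -/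
theorem G13_bd {d : ℕ} (D A : ℕ) (H : MvPolynomial (Fin d) ℤ) (hH : H.IsHomogeneous D) (v : Fin d → ℕ) :
    ∃ A' : ℕ, ∀ (U : ℕ) (R : MvPolynomial (Fin d) ℤ) (t0 : Fin d → ℕ), 1 ≤ U → Pert D A U H R → (∀ j, t0 j ≤ U) →
    ∀ j ≤ D, |(ln R t0 v).coeff j| ≤ A' * (U : ℤ) ^ (D - j) := by
  classical
  let Ms : Finset (Fin d →₀ ℕ) := (Fintype.piFinset fun _ : Fin d => range (D + 1)).image Finsupp.equivFunOnFinite.symm
  let AH : ℕ := ∑ m ∈ H.support, (H.coeff m).natAbs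
  let V : ℕ := 1 + ∑ i, v i
  refine ⟨Ms.card * ((A + AH) * V ^ D), ?_⟩
  intro U R t0 hU hR ht j hj
  have hUz : (1 : ℤ) ≤ (U : ℤ) := by exact_mod_cast hU
  have hcoef : ∀ m, R.coeff m ≠ 0 → ∑ i, m i ≤ D ∧ |R.coeff m| ≤ ((A + AH : ℕ) : ℤ) * (U : ℤ) ^ (D - ∑ i, m i) := by
    intro m hm
    have hsub : R.coeff m = H.coeff m + (R - H).coeff m := by
      rw [MvPolynomial.coeff_sub]
      ring
    by_cases hH0 : H.coeff m = 0
    · rw [hH0, zero_add] at hsub
      have h1 : (R - H).coeff m ≠ 0 := by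
        rw [← hsub]
        exact hm
      obtain ⟨h2, h3⟩ := hR m h1
      refine ⟨h2.le, ?_⟩
      rw [hsub]
      refine h3.trans ?_
      refine mul_le_mul_of_nonneg_right ?_ (pow_nonneg (Nat.cast_nonneg _) _)
      push_cast
      have : (0 : ℤ) ≤ (AH : ℤ) := Nat.cast_nonneg _
      linarith
    · have h1 := g13_hom hH hH0
      have h2 : (R - H).coeff m = 0 := by
        by_contra h3
        have := (hR m h3).1
        omega
      rw [h2, add_zero] at hsub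
      refine ⟨h1.le, ?_⟩
      rw [hsub, h1, Nat.sub_self, pow_zero, mul_one]
      have h4 : (H.coeff m).natAbs ≤ AH :=
        single_le_sum (f := fun m => (H.coeff m).natAbs) (fun _ _ => Nat.zero_le _) (MvPolynomial.mem_support_iff.2 hH0)
      rw [Int.abs_eq_natAbs]
      exact_mod_cast h4.trans (Nat.le_add_left _ _)
  have hterm : ∀ m ∈ R.support, |(C (R.coeff m) * (g13_q t0 v m).map (Nat.castRingHom ℤ)).coeff j| ≤
      (((A + AH) * V ^ D : ℕ) : ℤ) * (U : ℤ) ^ (D - j) := by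
    intro m hm
    obtain ⟨h1, h2⟩ := hcoef m (MvPolynomial.mem_support_iff.1 hm)
    rw [g13_coeffC, abs_mul, Nat.abs_cast]
    by_cases hjm : j ≤ ∑ i, m i
    · have h3 := g13_qbd t0 v m hU ht j hjm
      have h4 : ((g13_q t0 v m).coeff j : ℤ) ≤ (V : ℤ) ^ D * (U : ℤ) ^ (∑ i, m i - j) := by
        have h5 : (g13_q t0 v m).coeff j ≤ V ^ D * U ^ (∑ i, m i - j) :=
          h3.trans (Nat.mul_le_mul_right _ (Nat.pow_le_pow_right (Nat.le_add_right 1 _) h1))
        exact_mod_cast h5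
      calc |R.coeff m| * ((g13_q t0 v m).coeff j : ℤ)
          ≤ (((A + AH : ℕ) : ℤ) * (U : ℤ) ^ (D - ∑ i, m i)) * ((V : ℤ) ^ D * (U : ℤ) ^ (∑ i, m i - j)) :=
            mul_le_mul h2 h4 (Nat.cast_nonneg _) (mul_nonneg (Nat.cast_nonneg _) (pow_nonneg (Nat.cast_nonneg _) _))
        _ = (((A + AH) * V ^ D : ℕ) : ℤ) * ((U : ℤ) ^ (D - ∑ i, m i) * (U : ℤ) ^ (∑ i, m i - j)) := by
            push_cast
            ring
        _ = (((A + AH) * V ^ D : ℕ) : ℤ) * (U : ℤ) ^ (D - j) := by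
            rw [← pow_add]
            congr 2
            omega
    · have h3 : (g13_q t0 v m).coeff j = 0 :=
        coeff_eq_zero_of_natDegree_lt (lt_of_le_of_lt (g13_qdeg t0 v m).1 (not_le.1 hjm))
      rw [h3, Nat.cast_zero, mul_zero]
      positivity
  have hsupp : R.support ⊆ Ms := by
    intro m hm
    obtain ⟨h1, -⟩ := hcoef m (MvPolynomial.mem_support_iff.1 hm)
    refine mem_image.2 ⟨m, Fintype.mem_piFinset.2 fun i => mem_range.2 ?_, ?_⟩
    · have : m i ≤ ∑ i, m i := single_le_sum (f := fun i => m i) (fun _ _ => Nat.zero_le _) (mem_univ i)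
      omega
    · exact Finsupp.equivFunOnFinite.symm_apply_apply m
  rw [g13_ln, finsetSum_coeff]
  calc |∑ m ∈ R.support, (C (R.coeff m) * (g13_q t0 v m).map (Nat.castRingHom ℤ)).coeff j|
      ≤ ∑ m ∈ R.support, (((A + AH) * V ^ D : ℕ) : ℤ) * (U : ℤ) ^ (D - j) :=
        (abs_sum_le_sum_abs _ _).trans (sum_le_sum hterm)
    _ = (R.support.card : ℤ) * ((((A + AH) * V ^ D : ℕ) : ℤ) * (U : ℤ) ^ (D - j)) := by
        rw [sum_const, nsmul_eq_mul]
    _ ≤ (Ms.card : ℤ) * ((((A + AH) * V ^ D : ℕ) : ℤ) * (U : ℤ) ^ (D - j)) := by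
        refine mul_le_mul_of_nonneg_right ?_ (by positivity)
        exact_mod_cast card_le_card hsupp
    _ = ((Ms.card * ((A + AH) * V ^ D) : ℕ) : ℤ) * (U : ℤ) ^ (D - j) := by
        push_cast
        ring

end Pool.Agent.HPG
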