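import Pool.Agent.Lib.HPG.G12
import Pool.Agent.Lib.HPG.G13

/-!
# Project HPG, chunk G14 (M): several parameters (MP_f686a1)
-/

open Finset Polynomial

namespace Pool.Agent.HPG

open Classical in
/-- **G14.** Proof. `G = ∏_{i ≠ j} (H_i - H_j) ≠ 0` (`MvPolynomial` over `ℤ` is a domain, `hinj`); `G12_dir` gives `v`, `c_i = H_i(v)` distinct. `G13_top`, `G13_bd` (maximum
of `A` and of the `A'` for the finitely many `i`), `hone c` with this constant: for every `t0 ≤ U` at most `U T^(-η')` of the `u ≤ U` are such that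
`t0 + u v` is bad (`G13_eval`). `G12_lines` with `δ = U T^(-η')`: at most `(∑ v_j) (U+1)^(d-1) U T^(-η') ≤ U^d T^(-η)` for `T` large, `η = η'/2`. -/
theorem G14_multi {k d : ℕ} (hd : 1 ≤ d) (D : ℕ) (hD : 1 ≤ D) (H : Fin k → MvPolynomial (Fin d) ℤ)
    (hH : ∀ i, (H i).IsHomogeneous D) (hinj : Function.Injective H)
    (hone : ∀ c : Fin k → ℤ, Function.Injective c → OneP D c) (A : ℕ) (ε : ℝ) (hε : 0 < ε) :
    ∃ η : ℝ, 0 < η ∧ ∃ T0 : ℕ, ∀ T U : ℕ, T0 ≤ T → U ^ D ≤ T → T ≤ A * U ^ D →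
    ∀ R : Fin k → MvPolynomial (Fin d) ℤ, (∀ i, Pert D A U (H i) (R i)) →
    (((Fintype.piFinset fun _ : Fin d => range (U + 1)).filter fun t : Fin d → ℕ =>
      Bad1 T ε fun i => MvPolynomial.eval (fun j => (t j : ℤ)) (R i)).card : ℝ) ≤ (U : ℝ) ^ d * (T : ℝ) ^ (-η) := by
  classical
  obtain ⟨v, hv0, hv⟩ := G12_dir hd (∏ i, ∏ j ∈ univ.erase i, (H i - H j)) (by
    rw [Finset.prod_ne_zero_iff]
    intro i _
    rw [Finset.prod_ne_zero_iff]
    intro j hj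
    exact sub_ne_zero.2 fun h => Finset.ne_of_mem_erase hj (hinj h).symm)
  have hc : Function.Injective (fun i => MvPolynomial.eval (fun j => (v j : ℤ)) (H i)) := by
    intro i j hij
    by_contra hne
    apply hv
    rw [map_prod]
    apply Finset.prod_eq_zero (mem_univ i)
    rw [map_prod]
    apply Finset.prod_eq_zero (i := j) (Finset.mem_erase.2 ⟨Ne.symm hne, mem_univ j⟩)
    rw [map_sub]
    exact sub_eq_zero.2 hij
  choose Ai hAi using fun i => G13_bd D A (H i) (hH i) v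
  obtain ⟨A1, hA1⟩ : ∃ A1 : ℕ, A1 = A + ∑ i, Ai i := ⟨_, rfl⟩
  have hAA1 : A ≤ A1 := by omega
  have hAi1 : ∀ i, Ai i ≤ A1 := by
    intro i
    have := Finset.single_le_sum (f := Ai) (fun _ _ => Nat.zero_le _) (mem_univ i)
    omega
  obtain ⟨η', hη', T1, hT1⟩ := hone _ hc A1 ε hε
  obtain ⟨c0, hc0⟩ : ∃ c0 : ℝ, c0 = ((∑ j, v j : ℕ) : ℝ) * 2 ^ (d - 1) := ⟨_, rfl⟩
  have hc00 : 0 ≤ c0 := by rw [hc0]; positivity
  refine ⟨η' / 2, by linarith, max (max T1 1) ⌈c0 ^ (2 / η')⌉₊, ?_⟩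
  intro T U hT hUT hTU R hR
  have hTT1 : T1 ≤ T := ((le_max_left _ _).trans (le_max_left _ _)).trans hT
  have hT1' : 1 ≤ T := ((le_max_right _ _).trans (le_max_left _ _)).trans hT
  have hTc : c0 ^ (2 / η') ≤ (T : ℝ) := by
    have h1 : ⌈c0 ^ (2 / η')⌉₊ ≤ T := (le_max_right _ _).trans hT
    exact (Nat.le_ceil _).trans (by exact_mod_cast h1)
  have hT0 : (0 : ℝ) < T := by exact_mod_cast hT1'
  have hU1 : 1 ≤ U := by
    rcases Nat.eq_zero_or_pos U with h | h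
    · rw [h, zero_pow (by omega), mul_zero] at hTU
      omega
    · exact h
  have hTU' : T ≤ A1 * U ^ D := hTU.trans (Nat.mul_le_mul_right _ hAA1)
  have hline : ∀ t0 : Fin d → ℕ, (∀ j, t0 j ≤ U) →
      (((range (U + 1)).filter fun u => (∀ j, t0 j + u * v j ≤ U) ∧
        (fun t : Fin d → ℕ => Bad1 T ε fun i => MvPolynomial.eval (fun j => (t j : ℤ)) (R i))
          (fun j => t0 j + u * v j)).card : ℝ) ≤ U * (T : ℝ) ^ (-η') := by
    intro t0 ht0
    have h1 := hT1 T U hTT1 hUT hTU' (fun i => ln (R i) t0 v)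
      (fun i => G13_top (H i) (R i) (hH i) (hR i) t0 v)
      (fun i j hj => (hAi i U (R i) t0 hU1 (hR i) ht0 j hj.le).trans
        (mul_le_mul_of_nonneg_right (by exact_mod_cast hAi1 i) (by positivity)))
    refine le_trans ?_ h1
    have h2 : ((range (U + 1)).filter fun u => (∀ j, t0 j + u * v j ≤ U) ∧
        (fun t : Fin d → ℕ => Bad1 T ε fun i => MvPolynomial.eval (fun j => (t j : ℤ)) (R i))
          (fun j => t0 j + u * v j)).card ≤
        ((range (U + 1)).filter fun u : ℕ => Bad1 T ε fun i => (ln (R i) t0 v).eval (u : ℤ)).card := by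
      refine Finset.card_le_card fun u hu => ?_
      rw [mem_filter] at hu ⊢
      refine ⟨hu.1, ?_⟩
      have h3 : (fun i => (ln (R i) t0 v).eval (u : ℤ)) =
          fun i => MvPolynomial.eval (fun j => ((t0 j + u * v j : ℕ) : ℤ)) (R i) :=
        funext fun i => G13_eval (R i) t0 v u
      rw [h3]
      exact hu.2.2
    exact_mod_cast h2
  have hmain := G12_lines v hv0 U
    (fun t : Fin d → ℕ => Bad1 T ε fun i => MvPolynomial.eval (fun j => (t j : ℤ)) (R i))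
    (U * (T : ℝ) ^ (-η')) (by positivity) hline
  refine hmain.trans ?_
  have hU1' : (1 : ℝ) ≤ U := by exact_mod_cast hU1
  have h1 : ((U : ℝ) + 1) ^ (d - 1) ≤ (2 * (U : ℝ)) ^ (d - 1) :=
    pow_le_pow_left₀ (by positivity) (by linarith) _
  have h2 : (T : ℝ) ^ (-η') = (T : ℝ) ^ (-(η' / 2)) * (T : ℝ) ^ (-(η' / 2)) := by
    rw [← Real.rpow_add hT0]
    congr 1
    ring
  have h3 : c0 ≤ (T : ℝ) ^ (η' / 2) := by
    calc c0 = (c0 ^ (2 / η')) ^ (η' / 2) := by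
          rw [← Real.rpow_mul hc00, show 2 / η' * (η' / 2) = 1 by field_simp, Real.rpow_one]
      _ ≤ (T : ℝ) ^ (η' / 2) := Real.rpow_le_rpow (by positivity) hTc (by linarith)
  have h4 : c0 * (T : ℝ) ^ (-(η' / 2)) ≤ 1 := by
    calc c0 * (T : ℝ) ^ (-(η' / 2)) ≤ (T : ℝ) ^ (η' / 2) * (T : ℝ) ^ (-(η' / 2)) :=
          mul_le_mul_of_nonneg_right h3 (by positivity)
      _ = 1 := by rw [← Real.rpow_add hT0, add_neg_cancel, Real.rpow_zero]
  have h5 : (U : ℝ) ^ (d - 1) * U = (U : ℝ) ^ d := by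
    rw [← pow_succ, Nat.sub_add_cancel hd]
  calc ((∑ j, v j : ℕ) : ℝ) * ((U : ℝ) + 1) ^ (d - 1) * (U * (T : ℝ) ^ (-η'))
      ≤ ((∑ j, v j : ℕ) : ℝ) * (2 * (U : ℝ)) ^ (d - 1) * (U * (T : ℝ) ^ (-η')) :=
        mul_le_mul_of_nonneg_right (mul_le_mul_of_nonneg_left h1 (by positivity)) (by positivity)
    _ = ((U : ℝ) ^ (d - 1) * U) * (T : ℝ) ^ (-(η' / 2)) * (c0 * (T : ℝ) ^ (-(η' / 2))) := by
        rw [h2, mul_pow, hc0]
        ring
    _ ≤ ((U : ℝ) ^ (d - 1) * U) * (T : ℝ) ^ (-(η' / 2)) * 1 :=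
        mul_le_mul_of_nonneg_left h4 (by positivity)
    _ = (U : ℝ) ^ d * (T : ℝ) ^ (-(η' / 2)) := by rw [mul_one, h5]

end Pool.Agent.HPG
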