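import Mathlib

/-!
# Project HPG, chunk G1 (M, only Mathlib): duality
-/

open Finset

namespace Pool.Agent.HPG

private theorem g1_cs {α : Type*} (S : Finset α) (v g : α → ℂ) :
    ‖∑ x ∈ S, v x * g x‖ ^ 2 ≤ (∑ x ∈ S, ‖v x‖ ^ 2) * ∑ x ∈ S, ‖g x‖ ^ 2 := by
  have h1 : ‖∑ x ∈ S, v x * g x‖ ≤ ∑ x ∈ S, ‖v x‖ * ‖g x‖ := by
    refine (norm_sum_le _ _).trans (le_of_eq ?_)
    exact Finset.sum_congr rfl fun x _ => norm_mul _ _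
  calc ‖∑ x ∈ S, v x * g x‖ ^ 2 ≤ (∑ x ∈ S, ‖v x‖ * ‖g x‖) ^ 2 := by
        gcongr
    _ ≤ (∑ x ∈ S, ‖v x‖ ^ 2) * ∑ x ∈ S, ‖g x‖ ^ 2 := Finset.sum_mul_sq_le_sq_mul_sq _ _ _

private theorem g1_swap {α β : Type*} (S : Finset α) (T : Finset β) (F : α → β → ℂ) (v : α → ℂ) (w : β → ℂ) :
    ∑ y ∈ T, w y * (∑ x ∈ S, v x * F x y) = ∑ x ∈ S, v x * ∑ y ∈ T, w y * F x y := by
  simp_rw [Finset.mul_sum]
  rw [Finset.sum_comm]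
  refine Finset.sum_congr rfl fun x _ => Finset.sum_congr rfl fun y _ => ?_
  ring

/-- **G1a.** An operator and its transpose have the same norm. Proof. `G y = ∑_{x ∈ S} v x * F x y`, `w y = conj (G y)`. Then
`A = ∑_y ‖G y‖² = ∑_y w y * G y = ∑_x v x * (∑_y w y * F x y)`, Cauchy-Schwarz: `A² ≤ (∑ ‖v‖²) (Λ ∑ ‖w‖²) = (∑ ‖v‖²) Λ A`. -/
theorem G1_dual {α β : Type*} (S : Finset α) (T : Finset β) (F : α → β → ℂ) (Λ : ℝ) (hΛ : 0 ≤ Λ)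
    (h : ∀ w : β → ℂ, ∑ x ∈ S, ‖∑ y ∈ T, w y * F x y‖ ^ 2 ≤ Λ * ∑ y ∈ T, ‖w y‖ ^ 2) (v : α → ℂ) :
    ∑ y ∈ T, ‖∑ x ∈ S, v x * F x y‖ ^ 2 ≤ Λ * ∑ x ∈ S, ‖v x‖ ^ 2 := by
  set G : β → ℂ := fun y => ∑ x ∈ S, v x * F x y with hG
  set A : ℝ := ∑ y ∈ T, ‖∑ x ∈ S, v x * F x y‖ ^ 2 with hA
  have hA0 : 0 ≤ A := Finset.sum_nonneg fun _ _ => by positivity
  set w : β → ℂ := fun y => (starRingEnd ℂ) (G y) with hw
  have hwA : ∑ y ∈ T, ‖w y‖ ^ 2 = A := by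
    refine Finset.sum_congr rfl fun y _ => ?_
    rw [hw]
    simp only [RCLike.norm_conj]
    rfl
  have hAc : (A : ℂ) = ∑ x ∈ S, v x * ∑ y ∈ T, w y * F x y := by
    rw [← g1_swap, hA, Complex.ofReal_sum]
    refine Finset.sum_congr rfl fun y _ => ?_
    rw [Complex.ofReal_pow, ← Complex.conj_mul']
  have h1 := g1_cs S v (fun x => ∑ y ∈ T, w y * F x y)
  rw [← hAc, Complex.norm_real, Real.norm_eq_abs, sq_abs] at h1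
  have h2 := h w
  rw [hwA] at h2
  have hV : 0 ≤ ∑ x ∈ S, ‖v x‖ ^ 2 := Finset.sum_nonneg fun _ _ => by positivity
  have h3 : A ^ 2 ≤ (Λ * ∑ x ∈ S, ‖v x‖ ^ 2) * A := by
    calc A ^ 2 ≤ (∑ x ∈ S, ‖v x‖ ^ 2) * ∑ x ∈ S, ‖∑ y ∈ T, w y * F x y‖ ^ 2 := h1
      _ ≤ (∑ x ∈ S, ‖v x‖ ^ 2) * (Λ * A) := mul_le_mul_of_nonneg_left h2 hV
      _ = (Λ * ∑ x ∈ S, ‖v x‖ ^ 2) * A := by ring
  rcases hA0.eq_or_lt with h0 | h0
  · rw [← h0]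
    exact mul_nonneg hΛ hV
  · rw [sq] at h3
    exact le_of_mul_le_mul_right h3 h0

/-- **G1b.** The same for bounded weights. Proof. `G` as before, `w y = conj (G y) / B` for `y ∈ T` (else `0`), bounded by `1`:
`∑_y ‖G y‖² = B ∑_x v x * (∑_y w y * F x y) ≤ B (∑_{x ∈ S} ‖v x‖²)^(1/2) Λ^(1/2)`. -/
theorem G1_bil {α β : Type*} (S : Finset α) (T : Finset β) (F : α → β → ℂ) (B Λ : ℝ) (hB : 0 < B)
    (h : ∀ w : β → ℂ, (∀ y, ‖w y‖ ≤ 1) → ∑ x ∈ S, ‖∑ y ∈ T, w y * F x y‖ ^ 2 ≤ Λ) (v : α → ℂ)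
    (hv : ∀ x, ‖v x‖ ≤ 1) (hF : ∀ y ∈ T, ‖∑ x ∈ S, v x * F x y‖ ≤ B) :
    ∑ y ∈ T, ‖∑ x ∈ S, v x * F x y‖ ^ 2 ≤ B * Real.sqrt (S.card * Λ) := by
  classical
  set A : ℝ := ∑ y ∈ T, ‖∑ x ∈ S, v x * F x y‖ ^ 2 with hA
  have hA0 : 0 ≤ A := Finset.sum_nonneg fun _ _ => by positivity
  set w : β → ℂ := fun y => if y ∈ T then (starRingEnd ℂ) (∑ x ∈ S, v x * F x y) / (B : ℂ) else 0 with hw
  have hw1 : ∀ y, ‖w y‖ ≤ 1 := by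
    intro y
    rw [hw]
    by_cases hy : y ∈ T
    · simp only [hy, if_true]
      rw [norm_div, RCLike.norm_conj, Complex.norm_real, Real.norm_eq_abs, abs_of_pos hB, div_le_one hB]
      exact hF y hy
    · simp only [hy, if_false, norm_zero]
      exact zero_le_one
  have hBc : (B : ℂ) ≠ 0 := by exact_mod_cast hB.ne'
  have hAc : ((A / B : ℝ) : ℂ) = ∑ x ∈ S, v x * ∑ y ∈ T, w y * F x y := by
    rw [← g1_swap, hA, Complex.ofReal_div, Complex.ofReal_sum, Finset.sum_div]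
    refine Finset.sum_congr rfl fun y hy => ?_
    rw [hw]
    simp only [hy, if_true]
    rw [Complex.ofReal_pow, ← Complex.conj_mul']
    field_simp
  have h1 := g1_cs S v (fun x => ∑ y ∈ T, w y * F x y)
  rw [← hAc, Complex.norm_real, Real.norm_eq_abs, sq_abs] at h1
  have h2 := h w hw1
  have hΛ : 0 ≤ Λ := le_trans (Finset.sum_nonneg fun _ _ => by positivity) h2
  have hV : ∑ x ∈ S, ‖v x‖ ^ 2 ≤ S.card := by
    calc ∑ x ∈ S, ‖v x‖ ^ 2 ≤ ∑ _x ∈ S, (1 : ℝ) := by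
          refine Finset.sum_le_sum fun x _ => ?_
          exact pow_le_one₀ (norm_nonneg _) (hv x)
      _ = S.card := by simp
  have h3 : (A / B) ^ 2 ≤ S.card * Λ := by
    refine h1.trans ?_
    exact mul_le_mul hV h2 (Finset.sum_nonneg fun _ _ => by positivity) (by positivity)
  have h4 : A / B ≤ Real.sqrt (S.card * Λ) := Real.le_sqrt_of_sq_le h3
  rw [div_le_iff₀ hB] at h4
  linarith

end Pool.Agent.HPG
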