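import Pool.Agent.Lib.HPG.Defs
import Pool.Agent.Lib.HPG.G1

/-!
# Project HPG, chunk G3 (M): the second moment by duality
-/

open Finset Polynomial

namespace Pool.Agent.HPG

open Pool.Agent.Lib.H68T Pool.Agent.Lib.H18Q Pool.Agent.Lib.H59P Pool.Agent.Lib.H24P
open Pool.Agent.HUP
open Pool.Agent.HUK (GG)

/-- Translation of the variable keeps degree and leading coefficient. -/
theorem G3_shift {k : ℕ} {D : ℕ} {a : Fin k → ℤ} {R : Fin k → ℤ[X]} (hR : HD D a R) (t0 : ℤ) :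
    HD D a (fun i => (R i).comp (X + C t0)) := by
  intro i
  obtain ⟨h1, h2⟩ := hR i
  refine ⟨?_, ?_⟩
  · show ((R i).comp (X + C t0)).natDegree = D
    rw [natDegree_comp, natDegree_X_add_C, mul_one]
    exact h1
  · show ((R i).comp (X + C t0)).leadingCoeff = a i
    rw [leadingCoeff_comp (by rw [natDegree_X_add_C]; exact one_ne_zero), leadingCoeff_X_add_C, one_pow, mul_one]
    exact h2

/-- **G3.** Proof. `i0, C0` given: `FMT i0 C0` gives `s`, for `κ` it gives `δ0, X0`. Put `δ = δ0 / 4`. For `R, β, n1, σ, t0, N, w, F`: by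
`G3_shift` replace `R` by `R' i = (R i).comp (X + C t0)` and `Ico t0 (t0 + N)` by `Ico 0 (0 + N)`. `FMT` with `P = R'`, the box
`tb (fun _ => n1) (fun _ => σ)` in `Fin 1 → ℤ` (identified with `Ico n1 (n1 + σ)` in `ℕ`), the function `F`, arbitrary `w' : ℕ → ℂ` bounded by `1`:
`∑_{n ∈ Ico n1 (n1+σ)} ‖∑_{t < N} w' t * ∏ F i (R'_i(t) + (β_i + f_i n))‖² ≤ X^(2 + D - δ0)`. `G1_bil` with `B = C0 X^D` (`‖∑_n …‖ ≤ σ`; if
`C0 = 0` everything is `0`), `S = Ico n1 (n1+σ)`: the sum over `t` is at most `C0 X^D (C0 X^D X^(2+D-δ0))^(1/2) ≤ C0² X^(2D + 1 - δ0/2)`, at most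
`X^(1 + 2D - δ)` for `X` large. -/
theorem G3_SMR {k : ℕ} (D : ℕ) (f a : Fin k → ℤ) (hG : GD D f a)
    (h : FMT (fun i (_ : Fin 1) => f i) (fun _ => D) (fun _ => D) a) : SMR D f a := by
  intro i0 C0
  obtain ⟨s, hs, h1⟩ := h i0 C0
  refine ⟨s, hs, fun κ hκ => ?_⟩
  obtain ⟨δ0, hδ0, X0, h2⟩ := h1 κ hκ
  have hev : ∀ᶠ X : ℕ in Filter.atTop, ((C0 : ℝ)) ^ 3 ≤ (X : ℝ) ^ (δ0 / 2) :=
    ((tendsto_rpow_atTop (by positivity : 0 < δ0 / 2)).comp tendsto_natCast_atTop_atTop).eventually_ge_atTop _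
  obtain ⟨X1, hX1⟩ := Filter.eventually_atTop.mp hev
  refine ⟨δ0 / 4, by positivity, max (max X0 X1) 1, ?_⟩
  intro X hX R hR β n1 σ hσ t0 N hN w hw F hF hsupp hGG
  have hXa : X0 ≤ X := le_trans (le_trans (le_max_left _ _) (le_max_left _ _)) hX
  have hXb : X1 ≤ X := le_trans (le_trans (le_max_right _ _) (le_max_left _ _)) hX
  have hXc : 1 ≤ X := le_trans (le_max_right _ _) hX
  have hx1 : (1 : ℝ) ≤ (X : ℝ) := by exact_mod_cast hXc
  have hx0 : (0 : ℝ) < (X : ℝ) := by linarith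
  have hbig := hX1 X hXb
  rcases Nat.eq_zero_or_pos C0 with hC | hC
  · have hN0 : N = 0 := by
      rw [hC, zero_mul] at hN
      omega
    rw [hN0, add_zero, Ico_self, sum_empty]
    positivity
  · have hC1 : (1 : ℝ) ≤ (C0 : ℝ) := by exact_mod_cast hC
    have hσr : (σ : ℝ) ≤ (C0 : ℝ) * (X : ℝ) ^ D := by exact_mod_cast hσ
    have hBpos : (0 : ℝ) < (C0 : ℝ) * (X : ℝ) ^ D := by positivity
    have hsum : ∑ t ∈ Ico t0 (t0 + N), ‖∑ n ∈ Ico n1 (n1 + σ), w n *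
        ∏ i, F i (f i * (n : ℤ) + ((R i).eval (t : ℤ) + β i))‖ ^ 2 =
        ∑ y ∈ Ico 0 (0 + N), ‖∑ x ∈ Ico n1 (n1 + σ), w x *
          ∏ i, F i ((((R i).comp (Polynomial.X + C (t0 : ℤ))).eval (y : ℤ)) + (β i + f i * (x : ℤ)))‖ ^ 2 := by
      rw [sum_Ico_eq_sum_range, sum_Ico_eq_sum_range]
      have e1 : t0 + N - t0 = 0 + N - 0 := by omega
      rw [e1]
      refine sum_congr rfl fun y _ => ?_
      congr 2
      refine sum_congr rfl fun x _ => ?_
      congr 1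
      refine prod_congr rfl fun i _ => ?_
      congr 1
      rw [eval_comp, eval_add, eval_X, eval_C]
      have e2 : ((0 + y : ℕ) : ℤ) + (t0 : ℤ) = ((t0 + y : ℕ) : ℤ) := by push_cast; ring
      rw [e2]
      ring
    rw [hsum]
    have hbil := G1_bil (Ico n1 (n1 + σ)) (Ico 0 (0 + N))
      (fun (x y : ℕ) => ∏ i, F i ((((R i).comp (Polynomial.X + C (t0 : ℤ))).eval (y : ℤ)) + (β i + f i * (x : ℤ))))
      ((C0 : ℝ) * (X : ℝ) ^ D) ((X : ℝ) ^ (2 + (D : ℝ) - δ0)) hBpos ?_ w hw ?_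
    · refine hbil.trans ?_
      have hcard : ((Ico n1 (n1 + σ)).card : ℝ) = σ := by
        rw [Nat.card_Ico]
        simp
      rw [hcard]
      have hY : ((C0 : ℝ) * (X : ℝ) ^ D) * Real.sqrt (σ * (X : ℝ) ^ (2 + (D : ℝ) - δ0)) =
          Real.sqrt (((C0 : ℝ) * (X : ℝ) ^ D) ^ 2 * (σ * (X : ℝ) ^ (2 + (D : ℝ) - δ0))) := by
        symm
        rw [Real.sqrt_mul (by positivity : (0 : ℝ) ≤ ((C0 : ℝ) * (X : ℝ) ^ D) ^ 2), Real.sqrt_sq hBpos.le]
      rw [hY]
      have hZ : (X : ℝ) ^ (1 + 2 * (D : ℝ) - δ0 / 4) = Real.sqrt (((X : ℝ) ^ (1 + 2 * (D : ℝ) - δ0 / 4)) ^ 2) :=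
        (Real.sqrt_sq (by positivity)).symm
      rw [hZ]
      apply Real.sqrt_le_sqrt
      have e3 : ((X : ℝ) ^ (1 + 2 * (D : ℝ) - δ0 / 4)) ^ 2 =
          (X : ℝ) ^ (δ0 / 2) * ((X : ℝ) ^ D * (X : ℝ) ^ D * (X : ℝ) ^ D * (X : ℝ) ^ (2 + (D : ℝ) - δ0)) := by
        have hD' : (X : ℝ) ^ D = (X : ℝ) ^ (D : ℝ) := (Real.rpow_natCast _ _).symm
        rw [hD', ← Real.rpow_natCast ((X : ℝ) ^ (1 + 2 * (D : ℝ) - δ0 / 4)) 2, ← Real.rpow_mul hx0.le,
          ← Real.rpow_add hx0, ← Real.rpow_add hx0, ← Real.rpow_add hx0, ← Real.rpow_add hx0]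
        congr 1
        push_cast
        ring
      rw [e3]
      have hΛ : (0 : ℝ) ≤ (X : ℝ) ^ (2 + (D : ℝ) - δ0) := by positivity
      have hXD : (0 : ℝ) ≤ (X : ℝ) ^ D := by positivity
      calc ((C0 : ℝ) * (X : ℝ) ^ D) ^ 2 * (σ * (X : ℝ) ^ (2 + (D : ℝ) - δ0))
          ≤ ((C0 : ℝ) * (X : ℝ) ^ D) ^ 2 * (((C0 : ℝ) * (X : ℝ) ^ D) * (X : ℝ) ^ (2 + (D : ℝ) - δ0)) := by
            refine mul_le_mul_of_nonneg_left ?_ (by positivity)
            exact mul_le_mul_of_nonneg_right hσr hΛ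
        _ = (C0 : ℝ) ^ 3 * ((X : ℝ) ^ D * (X : ℝ) ^ D * (X : ℝ) ^ D * (X : ℝ) ^ (2 + (D : ℝ) - δ0)) := by ring
        _ ≤ (X : ℝ) ^ (δ0 / 2) * ((X : ℝ) ^ D * (X : ℝ) ^ D * (X : ℝ) ^ D * (X : ℝ) ^ (2 + (D : ℝ) - δ0)) :=
            mul_le_mul_of_nonneg_right hbig (by positivity)
    · intro w' hw'
      have h3 := h2 X hXa (fun i => (R i).comp (Polynomial.X + C (t0 : ℤ))) (G3_shift hR t0) β
        (fun _ => (n1 : ℤ)) (fun _ => σ) (fun _ => hσ) 0 N (by rw [zero_add]; exact hN) w' hw' F hF hsupp hGG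
      have e4 : (∑ _j : Fin 1, (D : ℝ)) = D := by simp
      rw [e4] at h3
      refine le_trans (le_of_eq ?_) h3
      refine Finset.sum_nbij' (fun x : ℕ => (fun _ : Fin 1 => (x : ℤ))) (fun t => (t 0).toNat) ?_ ?_ ?_ ?_ ?_
      · intro x hx
        rw [mem_Ico] at hx
        unfold tb
        rw [Fintype.mem_piFinset]
        intro j
        rw [mem_Ico]
        beta_reduce
        constructor
        · exact_mod_cast hx.1
        · exact_mod_cast hx.2
      · intro t ht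
        unfold tb at ht
        rw [Fintype.mem_piFinset] at ht
        have h4 := ht 0
        rw [mem_Ico] at h4
        beta_reduce at h4
        rw [mem_Ico]
        omega
      · intro x _
        exact Int.toNat_natCast x
      · intro t ht
        unfold tb at ht
        rw [Fintype.mem_piFinset] at ht
        have h4 := ht 0
        rw [mem_Ico] at h4
        beta_reduce at h4
        funext j
        have hj : j = 0 := Subsingleton.elim _ _
        rw [hj]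
        show (((t 0).toNat : ℕ) : ℤ) = t 0
        omega
      · intro x _
        congr 2
        refine sum_congr rfl fun y _ => ?_
        congr 1
        refine prod_congr rfl fun i _ => ?_
        congr 2
        unfold lf
        simp
    · intro y _
      refine (norm_sum_le _ _).trans ?_
      have h5 : ∀ x ∈ Ico n1 (n1 + σ), ‖w x * ∏ i, F i ((((R i).comp (Polynomial.X + C (t0 : ℤ))).eval (y : ℤ)) +
          (β i + f i * (x : ℤ)))‖ ≤ 1 := by
        intro x _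
        rw [norm_mul, norm_prod]
        have h6 : ∏ i, ‖F i ((((R i).comp (Polynomial.X + C (t0 : ℤ))).eval (y : ℤ)) + (β i + f i * (x : ℤ)))‖ ≤ 1 :=
          prod_le_one (fun i _ => norm_nonneg _) (fun i _ => hF i _)
        calc ‖w x‖ * _ ≤ 1 * 1 := mul_le_mul (hw x) h6 (prod_nonneg fun i _ => norm_nonneg _) zero_le_one
          _ = 1 := one_mul 1
      refine (sum_le_sum h5).trans ?_
      rw [sum_const, Nat.card_Ico, nsmul_eq_mul, mul_one]
      have e5 : n1 + σ - n1 = σ := by omega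
      rw [e5]
      exact hσr

end Pool.Agent.HPG
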