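import Pool.Agent.Lib.HPG.G7
import Pool.Agent.Lib.HPG.G8
import Pool.Agent.Lib.H24P.K5

/-!
# Project HPG, chunk G9 (M): the core theorem
-/

open Finset Polynomial

namespace Pool.Agent.HPG

open Pool.Agent.Lib.H68T Pool.Agent.Lib.H18Q Pool.Agent.Lib.H59P Pool.Agent.Lib.H24P
open Pool.Agent.HUP

theorem g9_pol {k : ℕ} (f : Fin k → ℤ) (hf : ∀ i, 1 ≤ f i) (A : ℕ) (hA : 1 ≤ A) (h : ∀ i, (f i).natAbs ≤ A) :
    Pol A (lX f) := by
  have hf0 : ∀ i, f i ≠ 0 := fun i => by have := hf i; omega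
  have h1 : ∀ i, (lX f i).natDegree = 1 := by
    intro i
    change (C (f i) * X : ℤ[X]).natDegree = 1
    exact Polynomial.natDegree_C_mul_X _ (hf0 i)
  refine ⟨fun i => by rw [h1 i], fun i => by rw [h1 i]; exact hA, fun i => ?_⟩
  change ((C (f i) * X : ℤ[X]).leadingCoeff).natAbs ≤ A
  rw [Polynomial.leadingCoeff_C_mul_X]
  exact h i

/-- **G9** (port of `coreT`, HUP/R21.lean). Proof. Given `A, ε`: `Cv` of `G7_cover` for `A`, `A' ≥ max(A + 2, Cv, 2, f_i)`, `ε' = min ε (1/2)`; `K5_mono`. If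
the set is empty nothing is to be shown, otherwise `Lin A' B` by `K5_lin`. `G8_box` (for `A'`, `ε'`) gives `Q`; `G7_cover` with `q = 8 Q^10`, `T = Q^τ`,
`δ = Q^(-c1)`, `E = Ex Z B f R ε'` (`Cb D A U R` implies `Cb D A' U R`; `2 T ≤ A' Q^τ`, `Cv T² q ≤ U` from `100 D log Q ≤ log Z`, `Z ≤ A U^D`). The bound
`Cv (Q^(-τ/(2D)) + Q^(-c1)) U ≤ U Z^(-η)` as `Q ≥ Z^(1/C)`, `Z` large. (`Ex` with `ε` implies `Ex` with `ε'`: `Z^(1-ε) ≤ Z^(1-ε')`.) -/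
theorem G9_core {k : ℕ} (D : ℕ) (f a : Fin k → ℤ) (hG : GD D f a) (hF : FGR D f a) (hS : S4R D f a) :
    CoreR D f a := by
  classical
  intro A ε hε
  obtain ⟨A0, hA0⟩ : ∃ A0, A0 = A + 1 := ⟨_, rfl⟩
  obtain ⟨Cv, hCv1, hcover⟩ := G7_cover D hG.D1 a A0 (by omega)
  obtain ⟨A', hA'⟩ : ∃ A', A' = A + 3 + Cv + ∑ i, (f i).natAbs := ⟨_, rfl⟩
  have hA1 : 1 ≤ A' := by omega
  have hAA : A ≤ A' := by omega
  have hA0A : A0 + 2 ≤ A' := by omega
  have hA2 : 2 ≤ A' := by omega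
  have hACv : Cv ≤ A' := by omega
  have hsum : ∀ i, (f i).natAbs ≤ A' := by
    intro i
    have := Finset.single_le_sum (f := fun i => (f i).natAbs) (fun _ _ => Nat.zero_le _) (mem_univ i)
    have h2 : (f i).natAbs ≤ ∑ i, (f i).natAbs := this
    omega
  have hPol : Pol A' (lX f) := g9_pol f hG.f1 A' hA1 hsum
  obtain ⟨ε', hε'⟩ : ∃ ε', ε' = min ε (1 / 2) := ⟨_, rfl⟩
  have he0 : 0 < ε' := by
    rw [hε']
    exact lt_min hε (by norm_num)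
  have he1 : ε' ≤ 1 / 2 := by
    rw [hε']
    exact min_le_right _ _
  have he2 : ε' ≤ ε := by
    rw [hε']
    exact min_le_left _ _
  obtain ⟨c1, C, τ, hc1, hC, hτ, hτ1, Z0, hK⟩ := G8_box D f a hG hF hS A' hA1 hPol ε' he0 he1
  have hC0 : 0 < C := by linarith
  have hA1' : (1 : ℝ) ≤ A' := by exact_mod_cast hA1
  have hA2' : (2 : ℝ) ≤ A' := by exact_mod_cast hA2
  have hACv' : (Cv : ℝ) ≤ A' := by exact_mod_cast hACv
  have hCv1' : (1 : ℝ) ≤ Cv := by exact_mod_cast hCv1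
  have hD1' : (1 : ℝ) ≤ D := by exact_mod_cast hG.D1
  have hD0' : (0 : ℝ) < D := by linarith
  obtain ⟨b, hb⟩ : ∃ b : ℝ, b = min (τ * (1 / (2 * (D : ℝ)))) c1 := ⟨_, rfl⟩
  have hb0 : 0 < b := by
    rw [hb]
    exact lt_min (by positivity) hc1
  have hba : b ≤ τ * (1 / (2 * (D : ℝ))) := by
    rw [hb]
    exact min_le_left _ _
  have hbc : b ≤ c1 := by
    rw [hb]
    exact min_le_right _ _
  have hη : 0 < b / (2 * C) := by positivity
  obtain ⟨Z1, hZ1⟩ := k5_ev (1 / C) (by positivity) (8 * A')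
  obtain ⟨Z2, hZ2⟩ := k5_ev (b / (2 * C)) hη (2 * Cv)
  obtain ⟨Z3, hZ3⟩ := k5_ev (1 / C * τ) (by positivity) Cv
  refine ⟨b / (2 * C), hη, Z0 + Z1 + Z2 + Z3 + 2, ?_⟩
  intro Z U hZ hU1 hU2 B hOB R hR hCb
  have hZ2' : 2 ≤ Z := by omega
  have hZr : (2 : ℝ) ≤ Z := by exact_mod_cast hZ2'
  have hZ0' : (0 : ℝ) < Z := by linarith
  obtain ⟨Q, hQ1, hQ2, hQ3⟩ := hK Z (by omega)
  have hlogZ : 0 < Real.log Z := Real.log_pos (by linarith)
  have hlogQ : 0 < Real.log Q := by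
    by_contra h0
    rw [not_lt] at h0
    have h1 : C * Real.log Q ≤ 0 := mul_nonpos_of_nonneg_of_nonpos hC0.le h0
    linarith
  have hQ0 : (1 : ℝ) < Q := by
    by_contra h0
    rw [not_lt] at h0
    exact absurd hlogQ (not_lt.2 (Real.log_nonpos (Nat.cast_nonneg _) h0))
  have hQp : (0 : ℝ) < Q := by linarith
  -- Z^(1/C) ≤ Q
  have hZQ : (Z : ℝ) ^ (1 / C) ≤ Q := by
    rw [← Real.log_le_log_iff (by positivity) hQp, Real.log_rpow hZ0', div_mul_eq_mul_div, one_mul,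
      div_le_iff₀ hC0]
    linarith [mul_comm C (Real.log Q)]
  -- Q^(100 D) ≤ Z
  have hQZ : (Q : ℝ) ^ (100 * D) ≤ Z := by
    rw [← Real.log_le_log_iff (by positivity) hZ0', Real.log_pow]
    push_cast
    exact hQ1
  have hQA : 8 * (A' : ℝ) ≤ Q := (hZ1 Z (by omega)).trans hZQ
  obtain ⟨T, hT⟩ : ∃ T : ℝ, T = (Q : ℝ) ^ τ := ⟨_, rfl⟩
  have hT1 : 1 ≤ T := by
    rw [hT]
    exact Real.one_le_rpow hQ0.le hτ.le
  have hTCv : (Cv : ℝ) ≤ T := by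
    have h1 := hZ3 Z (by omega)
    rw [Real.rpow_mul hZ0'.le] at h1
    rw [hT]
    exact h1.trans (Real.rpow_le_rpow (by positivity) hZQ hτ.le)
  have hT2Q : T ^ 2 ≤ Q := by
    rw [hT, ← Real.rpow_natCast, ← Real.rpow_mul hQp.le]
    calc (Q : ℝ) ^ (τ * ((2 : ℕ) : ℝ)) ≤ (Q : ℝ) ^ (1 : ℝ) :=
          Real.rpow_le_rpow_of_exponent_le hQ0.le (by push_cast; linarith)
      _ = Q := Real.rpow_one _
  have hAr : (A : ℝ) ≤ A' := by exact_mod_cast hAA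
  have hUA : (Z : ℝ) ≤ A' * (U : ℝ) ^ D := by
    have h1 : (Z : ℝ) ≤ A * (U : ℝ) ^ D := by exact_mod_cast hU2
    exact h1.trans (mul_le_mul_of_nonneg_right hAr (by positivity))
  -- Q^12 ≤ U
  have hQU : (Q : ℝ) ^ 12 ≤ U := by
    by_contra h0
    rw [not_le] at h0
    have h1 : (U : ℝ) ^ D ≤ ((Q : ℝ) ^ 12) ^ D := pow_le_pow_left₀ (by positivity) h0.le D
    have h2 : (A' : ℝ) * (U : ℝ) ^ D ≤ Q * ((Q : ℝ) ^ 12) ^ D :=
      mul_le_mul (by linarith) h1 (by positivity) hQp.le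
    have h3 : (Q : ℝ) * ((Q : ℝ) ^ 12) ^ D = (Q : ℝ) ^ (12 * D + 1) := by
      rw [← pow_mul, pow_succ]
      ring
    have h4 : (Q : ℝ) ^ (12 * D + 1) < (Q : ℝ) ^ (100 * D) := by
      apply pow_lt_pow_right₀ hQ0
      have := hG.D1
      omega
    linarith
  have hUq : (Cv : ℝ) * T ^ 2 * ((8 * Q ^ 10 : ℕ) : ℝ) ≤ U := by
    have h5 : 8 * (Cv : ℝ) ≤ Q := by linarith
    have h4 : (Cv : ℝ) * T ^ 2 * ((8 * Q ^ 10 : ℕ) : ℝ) ≤ (Q : ℝ) ^ 12 := by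
      push_cast
      calc (Cv : ℝ) * T ^ 2 * (8 * (Q : ℝ) ^ 10) = (8 * Cv) * T ^ 2 * (Q : ℝ) ^ 10 := by ring
        _ ≤ Q * Q * (Q : ℝ) ^ 10 := by
          apply mul_le_mul_of_nonneg_right _ (by positivity)
          exact mul_le_mul h5 hT2Q (by positivity) hQp.le
        _ = (Q : ℝ) ^ 12 := by ring
    exact h4.trans hQU
  have hq1 : 1 ≤ 8 * Q ^ 10 := by
    have hQn : 1 ≤ Q := by
      have : (1 : ℝ) ≤ Q := hQ0.le
      exact_mod_cast this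
    have := Nat.one_le_pow 10 Q hQn
    omega
  by_cases hne : ((range (A * U + 1)).filter fun t : ℕ => (∀ i, 0 ≤ (R i).eval (t : ℤ)) ∧ Ex Z B f R ε t).Nonempty
  swap
  · rw [Finset.not_nonempty_iff_eq_empty] at hne
    rw [hne, card_empty, Nat.cast_zero]
    positivity
  obtain ⟨t0, ht0⟩ := hne
  rw [mem_filter] at ht0
  have hLin : Lin A' B := K5_lin hOB.deg (hOB.lc.trans hAA) ht0.2.2.1
  have hOKB : OKB A' ε' Z B := K5_mono (by omega) hOB hAA he2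
  have hU0 : U ^ D ≤ A0 * Z := hU1.trans (Nat.mul_le_mul_right _ (by omega))
  have hU0' : Z ≤ A0 * U ^ D := hU2.trans (Nat.mul_le_mul_right _ (by omega))
  have hUA1 : U ^ D ≤ A' * Z := hU1.trans (Nat.mul_le_mul_right _ hAA)
  have hUA2 : Z ≤ A' * U ^ D := hU2.trans (Nat.mul_le_mul_right _ hAA)
  have hCbm : ∀ A1 : ℕ, A ≤ A1 → Cb D A1 U R := by
    intro A1 hA1 i j hj
    refine (hCb i j hj).trans ?_
    apply mul_le_mul_of_nonneg_right _ (by positivity)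
    exact_mod_cast hA1
  have hcov := hcover Z U (8 * Q ^ 10) T ((Q : ℝ) ^ (-c1)) hq1 hTCv (by positivity) hUq hU0 hU0' R hR
    (hCbm A0 (by omega)) (Ex Z B f R ε')
    (fun M t1 s hM hs h1 h2 h3 h4 h5 h6 => by
      refine hQ3 B hLin hOKB M R U t1 s hR (hCbm A' hAA) hUA1 hUA2 hM hs (fun i => ?_) (fun i => ?_) ?_ h4
        (h5.trans (Nat.mul_le_mul_right _ hA0A)) h6
      · refine (h1 i).trans ?_
        rw [hT, mul_assoc]
        exact le_mul_of_one_le_left (by positivity) hA1'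
      · exact (h2 i).trans (mul_le_mul_of_nonneg_right hACv' (by positivity))
      · refine h3.trans ?_
        rw [hT, mul_assoc, mul_assoc]
        exact mul_le_mul_of_nonneg_right hA2' (by positivity))
  refine le_trans (Nat.cast_le.2 (Finset.card_le_card ?_)) (hcov.trans ?_)
  · intro t ht
    rw [mem_filter] at ht ⊢
    refine ⟨?_, ht.2.1, ht.2.2.1, ht.2.2.2.trans_le ?_⟩
    · have h1 := ht.1
      rw [mem_range] at h1 ⊢
      refine h1.trans_le ?_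
      have : A * U ≤ A0 * U := Nat.mul_le_mul_right U (by omega)
      omega
    · exact Real.rpow_le_rpow_of_exponent_le (by linarith) (by linarith)
  -- numerics
  have h1 : T ^ (-(1 / (2 * (D : ℝ)))) ≤ (Q : ℝ) ^ (-b) := by
    rw [hT, ← Real.rpow_mul hQp.le]
    exact Real.rpow_le_rpow_of_exponent_le hQ0.le (by linarith)
  have h2 : (Q : ℝ) ^ (-c1) ≤ (Q : ℝ) ^ (-b) := Real.rpow_le_rpow_of_exponent_le hQ0.le (by linarith)
  have h3 : (Q : ℝ) ^ (-b) ≤ (Z : ℝ) ^ (-(b / (2 * C))) * (Z : ℝ) ^ (-(b / (2 * C))) := by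
    rw [← Real.rpow_add hZ0']
    have e : -(b / (2 * C)) + -(b / (2 * C)) = (1 / C) * (-b) := by
      field_simp
      ring
    rw [e, Real.rpow_mul hZ0'.le]
    exact Real.rpow_le_rpow_of_nonpos (by positivity) hZQ (by linarith)
  have h4 := hZ2 Z (by omega)
  have h5 : (2 * (Cv : ℝ)) * (Z : ℝ) ^ (-(b / (2 * C))) ≤ 1 := by
    calc (2 * (Cv : ℝ)) * (Z : ℝ) ^ (-(b / (2 * C))) ≤
          (Z : ℝ) ^ (b / (2 * C)) * (Z : ℝ) ^ (-(b / (2 * C))) :=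
          mul_le_mul_of_nonneg_right h4 (by positivity)
      _ = 1 := by rw [← Real.rpow_add hZ0', add_neg_cancel, Real.rpow_zero]
  have h6 : (Cv : ℝ) * (T ^ (-(1 / (2 * (D : ℝ)))) + (Q : ℝ) ^ (-c1)) ≤ (Z : ℝ) ^ (-(b / (2 * C))) := by
    calc (Cv : ℝ) * (T ^ (-(1 / (2 * (D : ℝ)))) + (Q : ℝ) ^ (-c1)) ≤ Cv * ((Q : ℝ) ^ (-b) + (Q : ℝ) ^ (-b)) :=
          mul_le_mul_of_nonneg_left (add_le_add h1 h2) (by positivity)
      _ = 2 * Cv * (Q : ℝ) ^ (-b) := by ring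
      _ ≤ 2 * Cv * ((Z : ℝ) ^ (-(b / (2 * C))) * (Z : ℝ) ^ (-(b / (2 * C)))) :=
          mul_le_mul_of_nonneg_left h3 (by positivity)
      _ = (2 * Cv * (Z : ℝ) ^ (-(b / (2 * C)))) * (Z : ℝ) ^ (-(b / (2 * C))) := by ring
      _ ≤ 1 * (Z : ℝ) ^ (-(b / (2 * C))) := mul_le_mul_of_nonneg_right h5 (by positivity)
      _ = (Z : ℝ) ^ (-(b / (2 * C))) := one_mul _
  rw [mul_comm (U : ℝ)]
  exact mul_le_mul_of_nonneg_right h6 (by positivity)

end Pool.Agent.HPG
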