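import Pool.Agent.Lib.HPG.G2
import Pool.Agent.Lib.HPG.G3
import Pool.Agent.Lib.HPG.G4
import Pool.Agent.Lib.HPG.G9
import Pool.Agent.Lib.HPG.G11
import Pool.Agent.Lib.HPG.G14
import Pool.Agent.Lib.HUP.F8
import Pool.Agent.Lib.HUP.FGFin
import Pool.Agent.Lib.HPP.C8
import Pool.Agent.Lib.HUK.FIN

/-!
# Project HPG: all chunks together
-/

open Finset Polynomial

namespace Pool.Agent.HPG

/-- **The core theorem for all data.** -/
theorem FIN_core {k : ℕ} (D : ℕ) (f a : Fin k → ℤ) (hG : GD D f a) : CoreR D f a := by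
  have hD := G2_dat hG
  have hF := Pool.Agent.HUP.FMT_of _ _ _ _ hD fun D q r hD hr => Pool.Agent.HPP.C8_Z D q hD r hr
  exact G9_core D f a hG (G2_FGR D f a hG (Pool.Agent.HUP.FGTU_of hD hF))
    (G4_S4R D f a hG (G3_SMR D f a hG hF) Pool.Agent.HUK.FIN_PK)

/-- One parameter. -/
theorem FIN_one {k : ℕ} (D : ℕ) (hD : 1 ≤ D) (c : Fin k → ℤ) (hc : Function.Injective c) : OneP D c :=
  G11_one D hD c hc fun f a hG => FIN_core D f a hG

open Classical in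
/-- Several parameters. -/
theorem FIN_multi {k d : ℕ} (hd : 1 ≤ d) (D : ℕ) (hD : 1 ≤ D) (H : Fin k → MvPolynomial (Fin d) ℤ)
    (hH : ∀ i, (H i).IsHomogeneous D) (hinj : Function.Injective H) (A : ℕ) (ε : ℝ) (hε : 0 < ε) :
    ∃ η : ℝ, 0 < η ∧ ∃ T0 : ℕ, ∀ T U : ℕ, T0 ≤ T → U ^ D ≤ T → T ≤ A * U ^ D →
    ∀ R : Fin k → MvPolynomial (Fin d) ℤ, (∀ i, Pert D A U (H i) (R i)) →
    (((Fintype.piFinset fun _ : Fin d => range (U + 1)).filter fun t : Fin d → ℕ =>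
      Bad1 T ε fun i => MvPolynomial.eval (fun j => (t j : ℤ)) (R i)).card : ℝ) ≤ (U : ℝ) ^ d * (T : ℝ) ^ (-η) :=
  G14_multi hd D hD H hH hinj (fun c hc => FIN_one D hD c hc) A ε hε

end Pool.Agent.HPG
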