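import Mathlib

/-!
# Project HPG, chunk G12 (M, only Mathlib): lines
-/

open Finset

namespace Pool.Agent.HPG

/-- the last point of a line -/
theorem g12_max {d : ℕ} (v : Fin d → ℕ) (hv : v ≠ 0) (U : ℕ) (t : Fin d → ℕ) (ht : ∀ j, t j ≤ U) :
    ∃ (u : ℕ) (t0 : Fin d → ℕ), u ≤ U ∧ (∀ j, t0 j ≤ U) ∧ (∃ j, t0 j < v j) ∧ t = fun j => t0 j + u * v j := by
  classical
  obtain ⟨u, hu⟩ : ∃ u, u = Nat.findGreatest (fun u => ∀ j, u * v j ≤ t j) U := ⟨_, rfl⟩
  have hP : ∀ j, u * v j ≤ t j := by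
    rw [hu]
    exact Nat.findGreatest_spec (P := fun u => ∀ j, u * v j ≤ t j) (m := 0) (Nat.zero_le _) (fun j => by simp)
  have huU : u ≤ U := by
    rw [hu]
    exact Nat.findGreatest_le _
  obtain ⟨j0, hj0⟩ : ∃ j, v j ≠ 0 := by
    by_contra hcon
    push Not at hcon
    exact hv (funext hcon)
  have hN : ¬ ∀ j, (u + 1) * v j ≤ t j := by
    intro hP1
    by_cases hle : u + 1 ≤ U
    · exact Nat.findGreatest_is_greatest (P := fun u => ∀ j, u * v j ≤ t j) (n := U) (k := u + 1) (by omega) hle hP1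
    · have h1 := hP1 j0
      have h2 := ht j0
      have h3 : u + 1 ≤ (u + 1) * v j0 := Nat.le_mul_of_pos_right _ (Nat.pos_of_ne_zero hj0)
      omega
  push Not at hN
  obtain ⟨j1, hj1⟩ := hN
  refine ⟨u, fun j => t j - u * v j, huU, fun j => (Nat.sub_le _ _).trans (ht j), ⟨j1, ?_⟩, ?_⟩
  · show t j1 - u * v j1 < v j1
    have h1 : (u + 1) * v j1 = u * v j1 + v j1 := by ring
    have h2 := hP j1
    omega
  · funext j
    have := hP j
    show t j = t j - u * v j + u * v j
    omega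

/-- a face -/
theorem g12_face {d : ℕ} (v : Fin d → ℕ) (U : ℕ) (j : Fin d) :
    (((Fintype.piFinset fun _ : Fin d => range (U + 1)).filter fun t => t j < v j).card) ≤ v j * (U + 1) ^ (d - 1) := by
  classical
  have h1 : ((Fintype.piFinset fun _ : Fin d => range (U + 1)).filter fun t => t j < v j) ⊆
      Fintype.piFinset fun i : Fin d => if i = j then range (v j) else range (U + 1) := by
    intro t ht
    rw [mem_filter, Fintype.mem_piFinset] at ht
    rw [Fintype.mem_piFinset]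
    intro i
    by_cases hi : i = j
    · rw [if_pos hi, hi]
      exact mem_range.2 ht.2
    · rw [if_neg hi]
      exact ht.1 i
  refine (card_le_card h1).trans ?_
  rw [Fintype.card_piFinset, ← Finset.mul_prod_erase univ _ (mem_univ j)]
  rw [if_pos rfl, card_range]
  have h2 : ∏ x ∈ univ.erase j, (if x = j then range (v j) else range (U + 1)).card = (U + 1) ^ (d - 1) := by
    rw [Finset.prod_congr rfl (g := fun _ => U + 1)]
    · rw [Finset.prod_const, card_erase_of_mem (mem_univ j), card_univ, Fintype.card_fin]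
    · intro x hx
      rw [if_neg (ne_of_mem_erase hx), card_range]
  rw [h2]

/-- **G12a.** Proof. For `t` in the box `[0, U]^d` let `u` be maximal with `u v ≤ t` (coordinatewise; `v ≠ 0`, so `u ≤ U`), `t0 = t - u v`. Then `t0 j < v j` for
some `j`: at most `∑_j v_j (U+1)^(d-1)` points `t0`. `t ↦ (t0, u)` is injective. -/
theorem G12_lines {d : ℕ} (v : Fin d → ℕ) (hv : v ≠ 0) (U : ℕ) (E : (Fin d → ℕ) → Prop) [DecidablePred E] (δ : ℝ)
    (hδ : 0 ≤ δ) (h : ∀ t0 : Fin d → ℕ, (∀ j, t0 j ≤ U) →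
      (((range (U + 1)).filter fun u => (∀ j, t0 j + u * v j ≤ U) ∧ E (fun j => t0 j + u * v j)).card : ℝ) ≤ δ) :
    (((Fintype.piFinset fun _ : Fin d => range (U + 1)).filter E).card : ℝ) ≤
      (∑ j, v j : ℕ) * ((U : ℝ) + 1) ^ (d - 1) * δ := by
  classical
  obtain ⟨T0, hT0⟩ : ∃ T0 : Finset (Fin d → ℕ), T0 =
      univ.biUnion (fun j => (Fintype.piFinset fun _ : Fin d => range (U + 1)).filter fun t => t j < v j) := ⟨_, rfl⟩
  have hcard : T0.card ≤ ∑ j, v j * (U + 1) ^ (d - 1) := by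
    rw [hT0]
    exact card_biUnion_le.trans (Finset.sum_le_sum fun j _ => g12_face v U j)
  have hsub : (Fintype.piFinset fun _ : Fin d => range (U + 1)).filter E ⊆
      T0.biUnion (fun t0 => ((range (U + 1)).filter fun u => (∀ j, t0 j + u * v j ≤ U) ∧
        E (fun j => t0 j + u * v j)).image (fun u => fun j => t0 j + u * v j)) := by
    intro t ht
    rw [mem_filter, Fintype.mem_piFinset] at ht
    have htU : ∀ j, t j ≤ U := fun j => by
      have := mem_range.1 (ht.1 j)
      omega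
    obtain ⟨u, t0, huU, ht0U, ⟨j1, hj1⟩, hteq⟩ := g12_max v hv U t htU
    rw [mem_biUnion]
    refine ⟨t0, ?_, ?_⟩
    · rw [hT0, mem_biUnion]
      refine ⟨j1, mem_univ _, ?_⟩
      rw [mem_filter, Fintype.mem_piFinset]
      exact ⟨fun j => mem_range.2 (by have := ht0U j; omega), hj1⟩
    · rw [mem_image]
      refine ⟨u, ?_, hteq.symm⟩
      rw [mem_filter, mem_range]
      refine ⟨by omega, fun j => ?_, ?_⟩
      · have := htU j
        rw [hteq] at this
        exact this
      · rw [← hteq]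
        exact ht.2
  have hT0U : ∀ t0 ∈ T0, ∀ j, t0 j ≤ U := by
    intro t0 ht0 j
    rw [hT0, mem_biUnion] at ht0
    obtain ⟨j1, _, h1⟩ := ht0
    rw [mem_filter, Fintype.mem_piFinset] at h1
    have := mem_range.1 (h1.1 j)
    omega
  calc (((Fintype.piFinset fun _ : Fin d => range (U + 1)).filter E).card : ℝ)
      ≤ ((T0.biUnion (fun t0 => ((range (U + 1)).filter fun u => (∀ j, t0 j + u * v j ≤ U) ∧
        E (fun j => t0 j + u * v j)).image (fun u => fun j => t0 j + u * v j))).card : ℝ) := by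
        exact_mod_cast card_le_card hsub
    _ ≤ ((∑ t0 ∈ T0, ((range (U + 1)).filter fun u => (∀ j, t0 j + u * v j ≤ U) ∧
        E (fun j => t0 j + u * v j)).card : ℕ) : ℝ) := by
        refine Nat.cast_le.2 (card_biUnion_le.trans (Finset.sum_le_sum fun t0 _ => card_image_le))
    _ = ∑ t0 ∈ T0, (((range (U + 1)).filter fun u => (∀ j, t0 j + u * v j ≤ U) ∧
        E (fun j => t0 j + u * v j)).card : ℝ) := by push_cast; rfl
    _ ≤ ∑ _t0 ∈ T0, δ := Finset.sum_le_sum fun t0 ht0 => h t0 (hT0U t0 ht0)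
    _ = (T0.card : ℝ) * δ := by rw [Finset.sum_const, nsmul_eq_mul]
    _ ≤ (∑ j, v j : ℕ) * ((U : ℝ) + 1) ^ (d - 1) * δ := by
        refine mul_le_mul_of_nonneg_right ?_ hδ
        have h1 : (T0.card : ℝ) ≤ ((∑ j, v j * (U + 1) ^ (d - 1) : ℕ) : ℝ) := Nat.cast_le.2 hcard
        refine h1.trans (le_of_eq ?_)
        rw [← Finset.sum_mul]
        push_cast
        rfl

/-- **G12b.** Proof. `G * X 0 ≠ 0`; a polynomial over `ℤ` which vanishes on `ℕ^d` is `0` (`MvPolynomial.funext_set` or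
`MvPolynomial.funext` for infinite sets; or induction). -/
theorem G12_dir {d : ℕ} (hd : 1 ≤ d) (G : MvPolynomial (Fin d) ℤ) (hG : G ≠ 0) :
    ∃ v : Fin d → ℕ, v ≠ 0 ∧ MvPolynomial.eval (fun j => (v j : ℤ)) G ≠ 0 := by
  classical
  obtain ⟨i0, _⟩ : ∃ i0 : Fin d, i0 = ⟨0, hd⟩ := ⟨_, rfl⟩
  by_contra hcon
  push Not at hcon
  have h1 : G * MvPolynomial.X i0 = 0 := by
    refine MvPolynomial.funext_set (fun _ => Set.range (fun n : ℕ => (n : ℤ))) (fun _ => ?_) ?_
    · exact Set.infinite_range_of_injective Nat.cast_injective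
    · intro x hx
      have hx' : ∀ i, ∃ n : ℕ, (n : ℤ) = x i := fun i => hx i (Set.mem_univ i)
      choose v hv using hx'
      have hxv : x = fun i => (v i : ℤ) := funext fun i => (hv i).symm
      rw [map_mul, MvPolynomial.eval_X, map_zero, hxv]
      by_cases hv0 : v = 0
      · rw [hv0]
        simp
      · rw [hcon v hv0, zero_mul]
  rcases mul_eq_zero.1 h1 with h2 | h2
  · exact hG h2
  · exact MvPolynomial.X_ne_zero i0 h2

end Pool.Agent.HPG
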