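import Pool.Agent.Lib.HPG.Defs
import Pool.Agent.Lib.HPG.G1

/-!
# Project HPG, chunk G2 (M): the large sieve by duality
-/

open Finset Polynomial

namespace Pool.Agent.HPG

open Pool.Agent.Lib.H68T Pool.Agent.Lib.H18Q Pool.Agent.Lib.H59P Pool.Agent.Lib.H24P
open Pool.Agent.HUP

private theorem g2_mem {a H : ℕ} {x : Fin 1 → ℤ} (hx : x ∈ tb (fun _ : Fin 1 => (a : ℤ)) (fun _ => H)) :
    (a : ℤ) ≤ x 0 ∧ x 0 < a + H := by
  have h : x 0 ∈ Ico (a : ℤ) ((a : ℤ) + (H : ℕ)) := Fintype.mem_piFinset.1 hx 0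
  exact mem_Ico.1 h

private theorem g2_sum {M : Type*} [AddCommMonoid M] (a H : ℕ) (G : (Fin 1 → ℤ) → M) :
    ∑ x ∈ tb (fun _ : Fin 1 => (a : ℤ)) (fun _ => H), G x = ∑ n ∈ Ico a (a + H), G fun _ => (n : ℤ) := by
  refine Finset.sum_nbij' (fun x => (x 0).toNat) (fun n _ => (n : ℤ)) ?_ ?_ ?_ ?_ ?_
  · intro x hx
    have h := g2_mem hx
    rw [mem_Ico]
    omega
  · intro n hn
    rw [mem_Ico] at hn
    refine Fintype.mem_piFinset.2 fun _ => ?_
    show (n : ℤ) ∈ Ico (a : ℤ) ((a : ℤ) + (H : ℕ))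
    rw [mem_Ico]
    omega
  · intro x hx
    have h := g2_mem hx
    funext j
    have e : j = 0 := Subsingleton.elim _ _
    subst e
    show (((x 0).toNat : ℕ) : ℤ) = x 0
    omega
  · intro n _
    exact Int.toNat_natCast n
  · intro x hx
    have h := g2_mem hx
    show G x = G fun _ => (((x 0).toNat : ℕ) : ℤ)
    congr 1
    funext j
    have e : j = 0 := Subsingleton.elim _ _
    subst e
    omega

private theorem g2_lf {k : ℕ} (f : Fin k → ℤ) (x : Fin 1 → ℤ) (i : Fin k) : lf (fun i (_ : Fin 1) => f i) x i = f i * x 0 := by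
  unfold lf
  rw [Fin.sum_univ_one]

/-- The data of HPC with one parameter. -/
theorem G2_dat {k : ℕ} {D : ℕ} {f a : Fin k → ℤ} (hG : GD D f a) :
    Dat (fun i (_ : Fin 1) => f i) (fun _ => D) (fun _ => D) a := by
  refine ⟨fun _ => hG.D1, hG.a0, fun i => ⟨0, ?_⟩, ?_, fun _ => hG.D1, fun _ _ _ => rfl⟩
  · have := hG.f1 i
    show f i ≠ 0
    omega
  · intro i i' hii _ x x' h1 h2
    have h3 : x * f i = x' * f i' := h2 0
    have h4 : x * (f i * a i' - f i' * a i) = 0 := by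
      have h5 : x * a i * f i' = x' * a i' * f i' := by rw [h1]
      have h6 : x * f i * a i' = x' * f i' * a i' := by rw [h3]
      linarith
    have hx : x = 0 := by
      rcases mul_eq_zero.1 h4 with h | h
      · exact h
      · exact absurd (sub_eq_zero.1 h) (hG.ind i i' hii)
    refine ⟨hx, ?_⟩
    rw [hx, zero_mul] at h1
    rcases mul_eq_zero.1 h1.symm with h | h
    · exact h
    · exact absurd h (hG.a0 i')

/-- **G2.** Proof. `E, Cc, cc` of `FGTU`. Let `R, Qm, t0, s` be given, and `Q ≤ Qm, p, T, D', a', H, w` as in `FGood` (so `Q^E ≤ H`,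
`Q^E ≤ Qm^E ≤ s`). Apply `FGTU` with the polynomials `R` (`HD D a R`), `Qm := Q`, the box `tb (fun _ => a') (fun _ => H)` in `Fin 1 → ℤ`
(identify it with `Ico a' (a' + H)` in `ℕ`: `n ↦ fun _ => (n : ℤ)`), `β = 0` (`hh c 0 (fun _ => n) i = (f i * n).toNat`, `f i ≥ 1`), level `Q`, range
`Ico t0 (t0 + s)`: for all `w'`: `∑_{n ∈ Ico a' (a'+H)} ‖∑_{t ∈ Ico t0 (t0+s)} w' t * F n t‖² ≤ Λ ∑_t ‖w' t‖²`,
`F n t = ∑_{κ ∈ T} ∏ gk (p i) (κ i) (R_i(t) + f_i n)`, `Λ = Cc (1 + log Q)^Cc * H * s * D'^(-cc)`. `G1_dual`; and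
`R_i(t) + f_i n = (lX f i).eval n + gR R t i` since `R_i(t) ≥ 0`. -/
theorem G2_FGR {k : ℕ} (D : ℕ) (f a : Fin k → ℤ) (hG : GD D f a)
    (h : FGTU (fun i (_ : Fin 1) => f i) (fun _ => D) a) : FGR D f a := by
  obtain ⟨E, Cc, cc, hpar, HF⟩ := h
  refine ⟨E, Cc, cc, hpar, ?_⟩
  intro R hR Qm t0 s hQm hQs hpos Q hQ1 hQQ p hp T hT D' hD' hlcm a' H hQH w
  have hQ2 : Q ^ E ≤ s := (Nat.pow_le_pow_left hQQ E).trans hQs
  have hfg := HF R hR Q (fun _ => (a' : ℤ)) (fun _ => H) (fun _ => 0) hQ1 (fun _ => hQH) (by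
    intro x hx i
    have h1 := g2_mem hx
    rw [g2_lf, zero_add]
    have h2 := hG.f1 i
    have h3 : (0 : ℤ) ≤ x 0 := by omega
    positivity) Q hQ1 le_rfl p hp T hT D' hD' hlcm t0 s hQ2
  have hcard : (tb (fun _ : Fin 1 => (a' : ℤ)) (fun _ => H)).card = H := by
    have h1 := g2_sum (M := ℕ) a' H fun _ => 1
    rw [Finset.sum_const, Finset.sum_const, Nat.card_Ico] at h1
    simpa using h1
  obtain ⟨F, hF⟩ : ∃ F : (Fin 1 → ℤ) → ℕ → ℂ, F = fun x (t : ℕ) => ∑ κ ∈ T, ∏ i, gk (p i) (κ i)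
      ((R i).eval (t : ℤ) + hh (fun i (_ : Fin 1) => f i) (fun _ => 0) x i) := ⟨_, rfl⟩
  have hl : 0 ≤ Real.log Q := Real.log_natCast_nonneg Q
  have hCc : 0 ≤ Cc := by linarith [hpar.one]
  have hdual := G1_dual (tb (fun _ : Fin 1 => (a' : ℤ)) (fun _ => H)) (Ico t0 (t0 + s)) F
    (Cc * (1 + Real.log Q) ^ Cc * H * s * (D' : ℝ) ^ (-cc)) (by positivity) (by
      intro w'
      have h1 := hfg w'
      rw [hcard] at h1
      rw [hF]
      refine h1.trans (le_of_eq ?_)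
      ring) (fun x => w (x 0).toNat)
  rw [g2_sum a' H (fun x => ‖w (x 0).toNat‖ ^ 2)] at hdual
  have hrhs : ∑ n ∈ Ico a' (a' + H), ‖w ((fun _ : Fin 1 => (n : ℤ)) 0).toNat‖ ^ 2 = ∑ n ∈ Ico a' (a' + H), ‖w n‖ ^ 2 :=
    Finset.sum_congr rfl fun n _ => by
      show ‖w ((n : ℤ)).toNat‖ ^ 2 = ‖w n‖ ^ 2
      rw [Int.toNat_natCast]
  rw [hrhs] at hdual
  have hlhs : ∑ t ∈ Ico t0 (t0 + s), ‖∑ n ∈ Ico a' (a' + H), w n *
        ∑ κ ∈ T, ∏ i, gk (p i) (κ i) ((lX f i).eval (n : ℤ) + gR R t i)‖ ^ 2 =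
      ∑ y ∈ Ico t0 (t0 + s), ‖∑ x ∈ tb (fun _ : Fin 1 => (a' : ℤ)) (fun _ => H), w (x 0).toNat * F x y‖ ^ 2 := by
    refine Finset.sum_congr rfl fun t ht => ?_
    rw [g2_sum a' H (fun x => w (x 0).toNat * F x t)]
    congr 2
    refine Finset.sum_congr rfl fun n hn => ?_
    have h1 : ((fun _ : Fin 1 => (n : ℤ)) 0).toNat = n := Int.toNat_natCast n
    rw [h1, hF]
    congr 1
    refine Finset.sum_congr rfl fun κ _ => Finset.prod_congr rfl fun i _ => ?_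
    congr 1
    have h2 : ((gR R t i : ℕ) : ℤ) = (R i).eval (t : ℤ) := Int.toNat_of_nonneg (hpos t ht i)
    have h3 : ((hh (fun i (_ : Fin 1) => f i) (fun _ => 0) (fun _ => (n : ℤ)) i : ℕ) : ℤ) = f i * n := by
      unfold hh
      rw [g2_lf, zero_add]
      have h4 := hG.f1 i
      exact Int.toNat_of_nonneg (by positivity)
    rw [h2, h3]
    unfold lX
    rw [Polynomial.eval_mul, Polynomial.eval_C, Polynomial.eval_X]
    ring
  rw [hlhs]
  refine hdual.trans (le_of_eq ?_)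
  rw [Nat.card_Ico, Nat.add_sub_cancel_left]
  ring

end Pool.Agent.HPG
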