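import Pool.Agent.Lib.HPG.Defs

/-!
# Project HPG, chunk G5 (M): variation of the polynomials
-/

open Finset Polynomial

namespace Pool.Agent.HPG

theorem g5_pow (T t t' : ℤ) (h0 : 0 ≤ t) (h1 : t ≤ T) (h0' : 0 ≤ t') (h1' : t' ≤ T) (j : ℕ) :
    |t ^ (j + 1) - t' ^ (j + 1)| ≤ (j + 1) * T ^ j * |t - t'| := by
  have hT : 0 ≤ T := h0.trans h1
  induction j with
  | zero => simp
  | succ j ih =>
    have e : t ^ (j + 1 + 1) - t' ^ (j + 1 + 1) = t * (t ^ (j + 1) - t' ^ (j + 1)) + t' ^ (j + 1) * (t - t') := by ring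
    have ha : |t * (t ^ (j + 1) - t' ^ (j + 1))| ≤ T * ((j + 1) * T ^ j * |t - t'|) := by
      rw [abs_mul, abs_of_nonneg h0]
      exact mul_le_mul h1 ih (abs_nonneg _) hT
    have hb : |t' ^ (j + 1) * (t - t')| ≤ T ^ (j + 1) * |t - t'| := by
      rw [abs_mul, abs_of_nonneg (pow_nonneg h0' _)]
      exact mul_le_mul_of_nonneg_right (pow_le_pow_left₀ h0' h1' _) (abs_nonneg _)
    rw [e]
    refine (abs_add_le _ _).trans ((add_le_add ha hb).trans (le_of_eq ?_))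
    push_cast
    ring

/-- One term of the difference. -/
theorem g5_term (D A Bd U j : ℕ) (hU : 1 ≤ U) (hj : j ≤ D) (cf : ℤ) (hc : |cf| ≤ A * (U : ℤ) ^ (D - j)) (t t' : ℤ)
    (h0 : 0 ≤ t) (h1 : t ≤ Bd * U) (h0' : 0 ≤ t') (h1' : t' ≤ Bd * U) :
    |cf * t ^ j - cf * t' ^ j| ≤ A * (D + 1) * ((Bd : ℤ) + 1) ^ D * (U : ℤ) ^ (D - 1) * |t - t'| := by
  have hA : (0 : ℤ) ≤ A := Nat.cast_nonneg A
  have hB : (0 : ℤ) ≤ Bd := Nat.cast_nonneg Bd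
  have hU' : (1 : ℤ) ≤ U := by exact_mod_cast hU
  cases j with
  | zero =>
    simp only [pow_zero, sub_self, abs_zero]
    positivity
  | succ j =>
    rw [← mul_sub, abs_mul]
    have h2 := g5_pow (Bd * U) t t' h0 h1 h0' h1' j
    have h3 : (Bd : ℤ) ^ j ≤ ((Bd : ℤ) + 1) ^ D :=
      (pow_le_pow_left₀ hB (by linarith) j).trans (pow_le_pow_right₀ (by linarith) (by omega))
    have h4 : ((j : ℤ) + 1) ≤ D + 1 := by
      have : (j : ℤ) ≤ D := by exact_mod_cast (by omega : j ≤ D)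
      linarith
    have e : (U : ℤ) ^ (D - (j + 1)) * (U : ℤ) ^ j = (U : ℤ) ^ (D - 1) := by
      rw [← pow_add]
      congr 1
      omega
    calc |cf| * |t ^ (j + 1) - t' ^ (j + 1)|
        ≤ (A * (U : ℤ) ^ (D - (j + 1))) * ((j + 1) * (Bd * U) ^ j * |t - t'|) :=
          mul_le_mul hc h2 (abs_nonneg _) (by positivity)
      _ = A * (((j : ℤ) + 1) * (Bd : ℤ) ^ j) * ((U : ℤ) ^ (D - (j + 1)) * (U : ℤ) ^ j) * |t - t'| := by
          rw [mul_pow]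
          ring
      _ = A * (((j : ℤ) + 1) * (Bd : ℤ) ^ j) * (U : ℤ) ^ (D - 1) * |t - t'| := by rw [e]
      _ ≤ A * (((D : ℤ) + 1) * ((Bd : ℤ) + 1) ^ D) * (U : ℤ) ^ (D - 1) * |t - t'| := by
          have h5 : ((j : ℤ) + 1) * (Bd : ℤ) ^ j ≤ ((D : ℤ) + 1) * ((Bd : ℤ) + 1) ^ D :=
            mul_le_mul h4 h3 (by positivity) (by positivity)
          exact mul_le_mul_of_nonneg_right (mul_le_mul_of_nonneg_right (mul_le_mul_of_nonneg_left h5 hA) (by positivity))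
            (abs_nonneg _)
      _ = A * (D + 1) * ((Bd : ℤ) + 1) ^ D * (U : ℤ) ^ (D - 1) * |t - t'| := by ring

/-- One term of the value. -/
theorem g5_val (D A Bd U j : ℕ) (hj : j ≤ D) (cf : ℤ) (hc : |cf| ≤ A * (U : ℤ) ^ (D - j)) (t : ℤ)
    (h0 : 0 ≤ t) (h1 : t ≤ Bd * U) :
    |cf * t ^ j| ≤ A * ((Bd : ℤ) + 1) ^ D * (U : ℤ) ^ D := by
  have hA : (0 : ℤ) ≤ A := Nat.cast_nonneg A
  have hB : (0 : ℤ) ≤ Bd := Nat.cast_nonneg Bd
  have hU : (0 : ℤ) ≤ U := Nat.cast_nonneg U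
  have h3 : (Bd : ℤ) ^ j ≤ ((Bd : ℤ) + 1) ^ D :=
    (pow_le_pow_left₀ hB (by linarith) j).trans (pow_le_pow_right₀ (by linarith) hj)
  have e : (U : ℤ) ^ (D - j) * (U : ℤ) ^ j = (U : ℤ) ^ D := by
    rw [← pow_add]
    congr 1
    omega
  rw [abs_mul, abs_of_nonneg (pow_nonneg h0 j)]
  calc |cf| * t ^ j ≤ (A * (U : ℤ) ^ (D - j)) * (Bd * U) ^ j :=
        mul_le_mul hc (pow_le_pow_left₀ h0 h1 j) (pow_nonneg h0 j) (by positivity)
    _ = A * (Bd : ℤ) ^ j * ((U : ℤ) ^ (D - j) * (U : ℤ) ^ j) := by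
        rw [mul_pow]
        ring
    _ = A * (Bd : ℤ) ^ j * (U : ℤ) ^ D := by rw [e]
    _ ≤ A * ((Bd : ℤ) + 1) ^ D * (U : ℤ) ^ D :=
        mul_le_mul_of_nonneg_right (mul_le_mul_of_nonneg_left h3 hA) (by positivity)

/-- **G5.** Proof. `R(t) = ∑_{j ≤ D} c_j t^j`, `|c_j| ≤ A U^(D-j)`, `t ≤ Bd U`: `|R(t)| ≤ ∑_j A U^(D-j) (Bd U)^j ≤ A (D+1) (Bd+1)^D U^D`, and
`|t^j - t'^j| ≤ j (Bd U)^(j-1) |t - t'|` (`pow_sub_pow`-type bound, induction on `j` or `Commute.geom_sum₂`), so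
`|R(t) - R(t')| ≤ A (D+1) D (Bd+1)^D U^(D-1) |t - t'|`. -/
theorem G5_var (D A Bd : ℕ) (hD : 1 ≤ D) : ∃ V : ℕ, 1 ≤ V ∧ ∀ (k U : ℕ) (R : Fin k → ℤ[X]), 1 ≤ U →
    (∀ i, (R i).natDegree ≤ D) → Cb D A U R → ∀ (i : Fin k) (t t' : ℕ), t ≤ Bd * U → t' ≤ Bd * U →
    |(R i).eval (t : ℤ) - (R i).eval (t' : ℤ)| ≤ V * (U : ℤ) ^ (D - 1) * |(t : ℤ) - t'| ∧
      |(R i).eval (t : ℤ)| ≤ V * (U : ℤ) ^ D := by
  refine ⟨(D + 1) * (A * (D + 1) * (Bd + 1) ^ D) + 1, by omega, ?_⟩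
  intro k U R hU hdeg hCb i t t' ht ht'
  have hA : (0 : ℤ) ≤ A := Nat.cast_nonneg A
  have hU' : (1 : ℤ) ≤ U := by exact_mod_cast hU
  have ht1 : (t : ℤ) ≤ Bd * U := by exact_mod_cast ht
  have ht1' : (t' : ℤ) ≤ Bd * U := by exact_mod_cast ht'
  have ev : ∀ x : ℤ, (R i).eval x = ∑ j ∈ range (D + 1), (R i).coeff j * x ^ j := fun x =>
    eval_eq_sum_range' (Nat.lt_succ_of_le (hdeg i)) x
  constructor
  · rw [ev, ev, ← Finset.sum_sub_distrib]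
    refine (Finset.abs_sum_le_sum_abs _ _).trans ?_
    have h : ∀ j ∈ range (D + 1), |(R i).coeff j * (t : ℤ) ^ j - (R i).coeff j * (t' : ℤ) ^ j| ≤
        A * (D + 1) * ((Bd : ℤ) + 1) ^ D * (U : ℤ) ^ (D - 1) * |(t : ℤ) - t'| := by
      intro j hj
      have hj' : j ≤ D := Nat.lt_succ_iff.1 (Finset.mem_range.1 hj)
      exact g5_term D A Bd U j hU hj' _ (hCb i j hj') t t' (Int.natCast_nonneg t) ht1 (Int.natCast_nonneg t') ht1'
    refine (Finset.sum_le_card_nsmul _ _ _ h).trans ?_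
    rw [Finset.card_range, nsmul_eq_mul]
    push_cast
    have h5 : 0 ≤ (U : ℤ) ^ (D - 1) * |(t : ℤ) - t'| := by positivity
    have e : (((D : ℤ) + 1) * (A * (D + 1) * (Bd + 1) ^ D) + 1) * (U : ℤ) ^ (D - 1) * |(t : ℤ) - t'| =
        ((D : ℤ) + 1) * (A * (D + 1) * (Bd + 1) ^ D * (U : ℤ) ^ (D - 1) * |(t : ℤ) - t'|) +
          (U : ℤ) ^ (D - 1) * |(t : ℤ) - t'| := by ring
    rw [e]
    linarith
  · rw [ev]
    refine (Finset.abs_sum_le_sum_abs _ _).trans ?_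
    have h : ∀ j ∈ range (D + 1), |(R i).coeff j * (t : ℤ) ^ j| ≤ A * (D + 1) * ((Bd : ℤ) + 1) ^ D * (U : ℤ) ^ D := by
      intro j hj
      have hj' : j ≤ D := Nat.lt_succ_iff.1 (Finset.mem_range.1 hj)
      refine (g5_val D A Bd U j hj' _ (hCb i j hj') t (Int.natCast_nonneg t) ht1).trans ?_
      have h6 : (A : ℤ) * ((Bd : ℤ) + 1) ^ D * (U : ℤ) ^ D * 1 ≤ (A : ℤ) * ((Bd : ℤ) + 1) ^ D * (U : ℤ) ^ D * (D + 1) :=
        mul_le_mul_of_nonneg_left (by linarith [Int.natCast_nonneg D]) (by positivity)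
      linarith
    refine (Finset.sum_le_card_nsmul _ _ _ h).trans ?_
    rw [Finset.card_range, nsmul_eq_mul]
    push_cast
    have h5 : 0 ≤ (U : ℤ) ^ D := by positivity
    have e : (((D : ℤ) + 1) * (A * (D + 1) * (Bd + 1) ^ D) + 1) * (U : ℤ) ^ D =
        ((D : ℤ) + 1) * (A * (D + 1) * (Bd + 1) ^ D * (U : ℤ) ^ D) + (U : ℤ) ^ D := by ring
    rw [e]
    linarith

end Pool.Agent.HPG
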