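import Mathlib

/-!
# Project HPG, chunk G6 (M, only Mathlib): a polynomial is small at few integers
-/

open Finset Polynomial

namespace Pool.Agent.HPG

theorem g6_gap {S : Finset ℕ} {n : ℕ} (h : S.card = n) (i j : Fin n) (hij : i ≤ j) :
    S.orderEmbOfFin h i + ((j : ℕ) - i) ≤ S.orderEmbOfFin h j := by
  obtain ⟨k, hk⟩ := Nat.exists_eq_add_of_le (show (i : ℕ) ≤ j from hij)
  induction k generalizing j with
  | zero =>
    have : j = i := Fin.ext (by omega)
    subst this
    simp
  | succ k ih =>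
    have hj' : (j : ℕ) - 1 < n := by omega
    have h1 := ih ⟨(j : ℕ) - 1, hj'⟩ (by
      show (i : ℕ) ≤ (j : ℕ) - 1
      omega) (by
      show (j : ℕ) - 1 = i + k
      omega)
    have h2 : S.orderEmbOfFin h ⟨(j : ℕ) - 1, hj'⟩ < S.orderEmbOfFin h j := by
      apply (S.orderEmbOfFin h).strictMono
      show (j : ℕ) - 1 < j
      omega
    have h3 : ((⟨(j : ℕ) - 1, hj'⟩ : Fin n) : ℕ) = (j : ℕ) - 1 := rfl
    rw [h3] at h1
    omega

/-- **G6.** Proof. Let `n = S.card`. If `n ≤ 2 D` then `n^D ≤ (2D)^D`. Otherwise `m = (n - 1) / D ≥ 1`; order `S` (`Finset.orderEmbOfFin`) and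
take the elements `t_i` number `i m`, `i = 0..D`: `|t_i - t_j| ≥ m |i - j| ≥ m` for `i ≠ j`. `Lagrange.leadingCoeff_eq_sum` over `ℚ` (or `ℝ`) for `R` mapped:
`lc = ∑_i R(t_i) / ∏_{j ≠ i} (t_i - t_j)`, so `1 ≤ |lc| ≤ (D+1) W / m^D`, `m^D ≤ (D+1) W`, and `n ≤ D (m + 1) ≤ 2 D m`:
`n^D ≤ (2D)^D (D+1) W`. So `C = (2D)^D (D+1)`. -/
theorem G6_sub (D : ℕ) (hD : 1 ≤ D) : ∃ C : ℕ, 1 ≤ C ∧ ∀ R : ℤ[X], R.natDegree = D → ∀ (W : ℕ) (S : Finset ℕ),
    1 ≤ W → (∀ t ∈ S, |R.eval (t : ℤ)| ≤ W) → S.card ^ D ≤ C * W := by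
  refine ⟨(2 * D) ^ D * (D + 1), Nat.mul_pos (pow_pos (by omega) _) (by omega), fun R hR W S hW hS => ?_⟩
  rcases le_or_gt S.card (2 * D) with hn | hn
  · calc S.card ^ D ≤ (2 * D) ^ D := Nat.pow_le_pow_left hn _
      _ ≤ (2 * D) ^ D * ((D + 1) * W) := Nat.le_mul_of_pos_right _ (Nat.mul_pos (by omega) hW)
      _ = _ := by ring
  · set n := S.card with hnn
    set m := (n - 1) / D with hm
    have hmD : D * m ≤ n - 1 := Nat.mul_div_le _ _
    have hm2 : 2 ≤ m := (Nat.le_div_iff_mul_le (by omega)).2 (by omega)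
    have hn2 : n ≤ D * (m + 1) := by
      have h1 : n - 1 < D * (m + 1) := Nat.lt_mul_div_succ (n - 1) (show 0 < D by omega)
      omega
    have hlt : ∀ i ∈ range (D + 1), i * m < n := by
      intro i hi
      rw [mem_range] at hi
      have : i * m ≤ D * m := Nat.mul_le_mul_right _ (by omega)
      omega
    -- the points
    let t : ℕ → ℕ := fun i => if h : i * m < n then S.orderEmbOfFin rfl ⟨i * m, h⟩ else 0
    have htS : ∀ i ∈ range (D + 1), t i ∈ S := by
      intro i hi
      simp only [t, dif_pos (hlt i hi)]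
      exact S.orderEmbOfFin_mem rfl _
    have hgap : ∀ i ∈ range (D + 1), ∀ j ∈ range (D + 1), i < j → t i + m ≤ t j := by
      intro i hi j hj hij
      simp only [t, dif_pos (hlt i hi), dif_pos (hlt j hj)]
      have h1 : i * m + m ≤ j * m := by
        have : (i + 1) * m ≤ j * m := Nat.mul_le_mul_right _ hij
        linarith
      have h2 := g6_gap (S := S) (n := n) rfl ⟨i * m, hlt i hi⟩ ⟨j * m, hlt j hj⟩ (by
        show i * m ≤ j * m
        omega)
      have h3 : m ≤ j * m - i * m := by omega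
      exact le_trans (Nat.add_le_add_left h3 _) h2
    have habs : ∀ i ∈ range (D + 1), ∀ j ∈ range (D + 1), i ≠ j → (m : ℚ) ≤ |(t i : ℚ) - t j| := by
      intro i hi j hj hij
      rcases lt_or_gt_of_ne hij with h | h
      · have h1 := hgap i hi j hj h
        have h2 : (t i : ℚ) + m ≤ t j := by exact_mod_cast h1
        rw [abs_sub_comm]
        exact le_trans (by linarith) (le_abs_self _)
      · have h1 := hgap j hj i hi h
        have h2 : (t j : ℚ) + m ≤ t i := by exact_mod_cast h1
        exact le_trans (by linarith) (le_abs_self _)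
    have hmpos : (0 : ℚ) < m := by exact_mod_cast (by omega : 0 < m)
    have hinj : Set.InjOn (fun i : ℕ => (t i : ℚ)) (range (D + 1) : Finset ℕ) := by
      intro i hi j hj hij
      by_contra hne
      have h1 := habs i hi j hj hne
      have h2 : (t i : ℚ) - t j = 0 := sub_eq_zero.2 hij
      rw [h2, abs_zero] at h1
      linarith
    have hR0 : R ≠ 0 := by
      rintro rfl
      simp at hR
      omega
    let P : ℚ[X] := R.map (Int.castRingHom ℚ)
    have hinjc : Function.Injective (Int.castRingHom ℚ) := RingHom.injective_int _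
    have hPdeg : ((range (D + 1)).card : WithBot ℕ) = P.degree + 1 := by
      rw [card_range, Polynomial.degree_map_eq_of_injective hinjc, Polynomial.degree_eq_natDegree hR0, hR]
      norm_num
    have hlc := Lagrange.leadingCoeff_eq_sum hinj hPdeg
    have hlc1 : P.leadingCoeff = (R.leadingCoeff : ℚ) := by
      rw [Polynomial.leadingCoeff_map_of_injective hinjc]
      rfl
    have hlc2 : (1 : ℚ) ≤ |P.leadingCoeff| := by
      rw [hlc1]
      have h1 : R.leadingCoeff ≠ 0 := Polynomial.leadingCoeff_ne_zero.2 hR0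
      have h2 : 1 ≤ |R.leadingCoeff| := Int.one_le_abs h1
      exact_mod_cast h2
    have hbound : |P.leadingCoeff| ≤ (D + 1) * (W / (m : ℚ) ^ D) := by
      rw [hlc]
      refine (Finset.abs_sum_le_sum_abs _ _).trans ?_
      have : ∀ i ∈ range (D + 1), |P.eval (t i : ℚ) / ∏ j ∈ (range (D + 1)).erase i, ((t i : ℚ) - t j)| ≤
          (W : ℚ) / (m : ℚ) ^ D := by
        intro i hi
        rw [abs_div]
        have h1 : |P.eval (t i : ℚ)| ≤ W := by
          have h2 : P.eval (t i : ℚ) = ((R.eval (t i : ℤ) : ℤ) : ℚ) := by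
            show (R.map (Int.castRingHom ℚ)).eval (t i : ℚ) = _
            rw [Polynomial.eval_map]
            have h3 := Polynomial.eval₂_at_apply (Int.castRingHom ℚ) (p := R) (t i : ℤ)
            simp only [eq_intCast, Int.cast_natCast] at h3
            exact h3
          rw [h2]
          exact_mod_cast hS _ (htS i hi)
        have h4 : (m : ℚ) ^ D ≤ |∏ j ∈ (range (D + 1)).erase i, ((t i : ℚ) - t j)| := by
          rw [Finset.abs_prod]
          have h5 : ((range (D + 1)).erase i).card = D := by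
            rw [card_erase_of_mem hi, card_range]
            rfl
          calc (m : ℚ) ^ D = ∏ _j ∈ (range (D + 1)).erase i, (m : ℚ) := by rw [Finset.prod_const, h5]
            _ ≤ _ := ?_
          refine Finset.prod_le_prod (fun _ _ => hmpos.le) fun j hj => ?_
          rw [mem_erase] at hj
          exact habs i hi j hj.2 (Ne.symm hj.1)
        exact div_le_div₀ (Nat.cast_nonneg _) h1 (pow_pos hmpos _) h4
      refine (Finset.sum_le_sum this).trans ?_
      rw [Finset.sum_const, card_range, nsmul_eq_mul]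
      push_cast
      exact le_refl _
    have hmW : m ^ D ≤ (D + 1) * W := by
      have h1 := hlc2.trans hbound
      have h2 : (0 : ℚ) < (m : ℚ) ^ D := pow_pos hmpos _
      rw [← mul_div_assoc, le_div_iff₀ h2, one_mul] at h1
      exact_mod_cast h1
    have h7 : n ≤ 2 * D * m := by nlinarith
    calc n ^ D ≤ (2 * D * m) ^ D := Nat.pow_le_pow_left h7 _
      _ = (2 * D) ^ D * m ^ D := mul_pow _ _ _
      _ ≤ (2 * D) ^ D * ((D + 1) * W) := Nat.mul_le_mul_left _ hmW
      _ = _ := by ring

end Pool.Agent.HPG
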