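import Pool.Agent.Lib.HPG.G5
import Pool.Agent.Lib.HPG.G6
import Pool.Agent.Lib.HUP.R20

/-!
# Project HPG, chunk G7 (M/L): covering of the range of `t`
-/

open Finset Polynomial

namespace Pool.Agent.HPG

open Pool.Agent.Lib.H68T Pool.Agent.Lib.H18Q Pool.Agent.Lib.H59P Pool.Agent.Lib.H24P
open Pool.Agent.HUP

/-- **G7** (compare `R20_cover`, HUP/R20.lean, and its `r20_num`, `r20_M`). Proof. `V` from `G5_var` (with `Bd = A + 2`), `C6` from `G6_sub`. Let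
`T ≥ Cv`, `Cv T² q ≤ U`, `s = q ⌊U/(q T)⌋`, so `U/(2T) ≤ s ≤ U/T ≤ U`, `q ∣ s`. The cells `Ico (u s) (u s + s)`, `u ≤ A U / s`, cover `range (A U + 1)`;
`(number of cells) s ≤ A U + s ≤ (A+2) U`, every cell ends at most at `(A+2) U`. Set `w = √T`, `Y = 2 Z/w`. (i) The `t ≤ A U` with `|R_i(t)| < Y` for some
`i`: `G6_sub` (`W = ⌈Y⌉ ≤ 3Z/w`), `card^D ≤ 3 C6 Z/w ≤ 3 C6 A U^D/w`, `card ≤ 3 C6 A U T^(-1/(2D))`, times `k`. (ii) Every other `t` with `R_i(t) ≥ 0`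
for all `i` is in a cell; on it `|R_i(t') - R_i(t'')| ≤ V U^(D-1) s ≤ V U^D/T ≤ V A Z/T`. With `v_i = R_i(u s)` (`≥ Y - V A Z/T ≥ Z/w`) and
`M_i = q ⌊5 v_i/(8q)⌋` (`r20_M`), `r20_num` (`C1 = V A`, `Zd = Z`, `q (2500 w⁴) ≤ Z` from `Cv T² q ≤ U ≤ U^D ≤ A Z`) gives `Z ≤ T M_i` and `Mid R M t'` on the
whole cell; `M_i ≤ v_i ≤ V U^D ≤ V A Z`. Hypothesis for these cells; sum. -/
theorem G7_cover {k : ℕ} (D : ℕ) (hD : 1 ≤ D) (a : Fin k → ℤ) (A : ℕ) (hA : 1 ≤ A) : ∃ Cv : ℕ, 1 ≤ Cv ∧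
    ∀ (Z U q : ℕ) (T δ : ℝ), 1 ≤ q → (Cv : ℝ) ≤ T → 0 ≤ δ → Cv * T ^ 2 * q ≤ U → U ^ D ≤ A * Z → Z ≤ A * U ^ D →
    ∀ R : Fin k → ℤ[X], HD D a R → Cb D A U R → ∀ (E : ℕ → Prop) [DecidablePred E],
    (∀ (M : Fin k → ℕ) (t0 s : ℕ), (∀ i, q ∣ M i) → q ∣ s → (∀ i, (Z : ℝ) ≤ T * M i) → (∀ i, (M i : ℝ) ≤ Cv * Z) →
      (U : ℝ) ≤ 2 * T * s → s ≤ U → t0 + s ≤ (A + 2) * U → (∀ t ∈ Ico t0 (t0 + s), Mid R M t) →
      (((Ico t0 (t0 + s)).filter E).card : ℝ) ≤ s * δ) →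
    (((range (A * U + 1)).filter fun t : ℕ => (∀ i, 0 ≤ (R i).eval (t : ℤ)) ∧ E t).card : ℝ) ≤
      Cv * (T ^ (-(1 / (2 * (D : ℝ)))) + δ) * U := by
  classical
  obtain ⟨V, hV1, hV⟩ := G5_var D A (A + 2) hD
  obtain ⟨C6, hC61, hC6⟩ := G6_sub D hD
  obtain ⟨C1, hC1⟩ : ∃ C1 : ℕ, C1 = V * A := ⟨_, rfl⟩
  have hC1' : 1 ≤ C1 := by
    rw [hC1]
    exact Nat.mul_pos hV1 hA
  obtain ⟨Cv, hCv⟩ : ∃ Cv : ℕ, Cv = 2500 * C1 ^ 2 + 2500 * A + C1 + k * (3 * C6 * A) + 2 * A := ⟨_, rfl⟩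
  have hCa : 2500 * C1 ^ 2 ≤ Cv := by rw [hCv]; omega
  have hCe : 2500 * A ≤ Cv := by rw [hCv]; omega
  have hCb1 : C1 ≤ Cv := by rw [hCv]; omega
  have hCc : k * (3 * C6 * A) ≤ Cv := by rw [hCv]; omega
  have hCf : 2 * A ≤ Cv := by rw [hCv]; omega
  have hC1sq : 1 ≤ C1 ^ 2 := Nat.one_le_pow _ _ hC1'
  have hCd : 2500 ≤ Cv := by omega
  refine ⟨Cv, by omega, ?_⟩
  intro Z U q T δ hq hT hδ hU hUZ hZU R hR hCb E _ hE
  have hqr : (1 : ℝ) ≤ q := by exact_mod_cast hq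
  have hCr : (2500 : ℝ) ≤ Cv := by exact_mod_cast hCd
  have hT1 : (2500 : ℝ) ≤ T := hCr.trans hT
  have hT0 : 0 < T := by linarith
  have hC1r : (1 : ℝ) ≤ C1 := by exact_mod_cast hC1'
  have hAr : (1 : ℝ) ≤ A := by exact_mod_cast hA
  obtain ⟨w, hw⟩ : ∃ w, w = Real.sqrt T := ⟨_, rfl⟩
  have hw0 : 0 ≤ w := by rw [hw]; exact Real.sqrt_nonneg _
  have hw2 : w ^ 2 = T := by rw [hw]; exact Real.sq_sqrt hT0.le
  have hwC : 50 * (C1 : ℝ) ≤ w := by
    have h1 : (2500 : ℝ) * (C1 : ℝ) ^ 2 ≤ Cv := by exact_mod_cast hCa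
    have h2 : (50 * (C1 : ℝ)) ^ 2 ≤ w ^ 2 := by
      rw [hw2]
      calc (50 * (C1 : ℝ)) ^ 2 = 2500 * (C1 : ℝ) ^ 2 := by ring
        _ ≤ (Cv : ℝ) := h1
        _ ≤ T := hT
    exact le_of_sq_le_sq h2 hw0
  have hwpos : 0 < w := by linarith
  have hqT : 0 < (q : ℝ) * T := by positivity
  have hU1 : (q : ℝ) * T ≤ U := by
    refine le_trans ?_ hU
    have h1 : (1 : ℝ) ≤ Cv * T := by nlinarith
    calc (q : ℝ) * T = 1 * (q * T) := by ring
      _ ≤ (Cv * T) * (q * T) := mul_le_mul_of_nonneg_right h1 hqT.le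
      _ = Cv * T ^ 2 * q := by ring
  have hUr : (1 : ℝ) ≤ U := by nlinarith
  have hUpos : 1 ≤ U := by exact_mod_cast hUr
  have hUD : (U : ℝ) ≤ (U : ℝ) ^ D := le_self_pow₀ hUr (by omega)
  have hUZr : (U : ℝ) ^ D ≤ A * Z := by exact_mod_cast hUZ
  have hZUr : (Z : ℝ) ≤ A * (U : ℝ) ^ D := by exact_mod_cast hZU
  have hqZ : (q : ℝ) * (2500 * w ^ 4) ≤ Z := by
    have h1 : (2500 : ℝ) * A ≤ Cv := by exact_mod_cast hCe
    have h2 : (A : ℝ) * (2500 * T ^ 2 * q) ≤ A * Z := by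
      calc (A : ℝ) * (2500 * T ^ 2 * q) = (2500 * A) * (T ^ 2 * q) := by ring
        _ ≤ Cv * (T ^ 2 * q) := mul_le_mul_of_nonneg_right h1 (by positivity)
        _ = Cv * T ^ 2 * q := by ring
        _ ≤ U := hU
        _ ≤ A * Z := hUD.trans hUZr
    have h3 := le_of_mul_le_mul_left h2 (by linarith)
    calc (q : ℝ) * (2500 * w ^ 4) = 2500 * T ^ 2 * q := by rw [← hw2]; ring
      _ ≤ (Z : ℝ) := h3
  have hwZ : w ≤ Z := by
    have h1 : w ≤ w ^ 4 := le_self_pow₀ (by linarith) (by norm_num)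
    have h2 : (0 : ℝ) ≤ w ^ 4 := by positivity
    have h3 : w ^ 4 ≤ q * (2500 * w ^ 4) := by nlinarith
    linarith
  have hZ0 : (0 : ℝ) < Z := hwpos.trans_le hwZ
  obtain ⟨s, hs⟩ : ∃ s : ℕ, s = q * ⌊(U : ℝ) / (q * T)⌋₊ := ⟨_, rfl⟩
  have hs1 : q ∣ s := by rw [hs]; exact dvd_mul_right _ _
  have hs3 : (s : ℝ) * T ≤ U := by
    have h1 : ((⌊(U : ℝ) / (q * T)⌋₊ : ℕ) : ℝ) ≤ (U : ℝ) / (q * T) := Nat.floor_le (by positivity)
    rw [le_div_iff₀ hqT] at h1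
    rw [hs]
    push_cast
    linarith [mul_comm (q : ℝ) ((⌊(U : ℝ) / (q * T)⌋₊ : ℕ) : ℝ),
      mul_assoc ((⌊(U : ℝ) / (q * T)⌋₊ : ℕ) : ℝ) (q : ℝ) T]
  have hs2 : (U : ℝ) ≤ 2 * T * s := by
    have h1 : (U : ℝ) / (q * T) < ((⌊(U : ℝ) / (q * T)⌋₊ : ℕ) : ℝ) + 1 := Nat.lt_floor_add_one _
    have h2 : 1 ≤ (U : ℝ) / (q * T) := by
      rw [le_div_iff₀ hqT]
      linarith
    have h4 : (1 : ℝ) ≤ ((⌊(U : ℝ) / (q * T)⌋₊ : ℕ) : ℝ) := by
      exact_mod_cast Nat.le_floor (by exact_mod_cast h2)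
    have h5 : (U : ℝ) / (q * T) ≤ 2 * ((⌊(U : ℝ) / (q * T)⌋₊ : ℕ) : ℝ) := by linarith
    rw [div_le_iff₀ hqT] at h5
    rw [hs]
    push_cast
    calc (U : ℝ) ≤ 2 * ((⌊(U : ℝ) / (q * T)⌋₊ : ℕ) : ℝ) * (q * T) := h5
      _ = 2 * T * (q * ((⌊(U : ℝ) / (q * T)⌋₊ : ℕ) : ℝ)) := by ring
  have hsU : (s : ℝ) ≤ U := by
    refine le_trans ?_ hs3
    exact le_mul_of_one_le_right (Nat.cast_nonneg _) (by linarith)
  have hsUn : s ≤ U := by exact_mod_cast hsU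
  have hspos : 0 < s := by
    rcases Nat.eq_zero_or_pos s with h | h
    · rw [h] at hs2
      push_cast at hs2
      linarith
    · exact h
  have hcell : ∀ u : ℕ, u ≤ A * U / s → u * s ≤ A * U := fun u hu =>
    (Nat.mul_le_mul_right _ hu).trans (Nat.div_mul_le_self _ _)
  have hcell2 : ∀ u : ℕ, u ≤ A * U / s → u * s + s ≤ (A + 2) * U := by
    intro u hu
    have h1 := hcell u hu
    have h2 : (A + 2) * U = A * U + 2 * U := by ring
    omega
  have hvar : ∀ u : ℕ, u ≤ A * U / s → ∀ (i : Fin k) (t t' : ℕ), t ∈ Ico (u * s) (u * s + s) →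
      t' ∈ Ico (u * s) (u * s + s) →
      |(((R i).eval (t : ℤ) : ℤ) : ℝ) - (((R i).eval (t' : ℤ) : ℤ) : ℝ)| * T ≤ C1 * Z := by
    intro u hu i t t' ht ht'
    rw [Finset.mem_Ico] at ht ht'
    have h0 := hcell2 u hu
    have h1 := (hV k U R hUpos (fun i => (hR i).1.le) hCb i t t' (by omega) (by omega)).1
    have h2 : |(t : ℤ) - t'| ≤ s := by
      rw [abs_le]
      constructor <;> omega
    have h3 : |(R i).eval (t : ℤ) - (R i).eval (t' : ℤ)| ≤ V * (U : ℤ) ^ (D - 1) * s :=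
      h1.trans (mul_le_mul_of_nonneg_left h2 (by positivity))
    have h4 : |(((R i).eval (t : ℤ) : ℤ) : ℝ) - (((R i).eval (t' : ℤ) : ℤ) : ℝ)| ≤ V * (U : ℝ) ^ (D - 1) * s := by
      have h5 : ((|(R i).eval (t : ℤ) - (R i).eval (t' : ℤ)| : ℤ) : ℝ) ≤ ((V * (U : ℤ) ^ (D - 1) * s : ℤ) : ℝ) :=
        Int.cast_le.2 h3
      push_cast at h5
      exact h5
    have h6 : (U : ℝ) ^ (D - 1) * U = (U : ℝ) ^ D := by
      rw [← pow_succ]
      congr 1
      omega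
    calc _ ≤ V * (U : ℝ) ^ (D - 1) * s * T := mul_le_mul_of_nonneg_right h4 hT0.le
      _ = V * (U : ℝ) ^ (D - 1) * (s * T) := by ring
      _ ≤ V * (U : ℝ) ^ (D - 1) * U := mul_le_mul_of_nonneg_left hs3 (by positivity)
      _ = V * (U : ℝ) ^ D := by rw [mul_assoc, h6]
      _ ≤ V * (A * Z) := mul_le_mul_of_nonneg_left hUZr (by positivity)
      _ = C1 * Z := by
        rw [hC1]
        push_cast
        ring
  obtain ⟨G, hG⟩ : ∃ G : Finset ℕ, G = (range (A * U / s + 1)).filter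
      fun u => ∀ i, (Z : ℝ) ≤ w * (((R i).eval ((u * s : ℕ) : ℤ) : ℤ) : ℝ) := ⟨_, rfl⟩
  obtain ⟨W, hW⟩ : ∃ W : ℕ, W = ⌈2 * (Z : ℝ) / w⌉₊ := ⟨_, rfl⟩
  -- the cover
  have hsub : ((range (A * U + 1)).filter fun t : ℕ => (∀ i, 0 ≤ (R i).eval (t : ℤ)) ∧ E t) ⊆
      (univ.biUnion fun i => (range (A * U + 1)).filter
        fun t : ℕ => 0 ≤ (R i).eval (t : ℤ) ∧ (R i).eval (t : ℤ) < W) ∪
      (G.biUnion fun u => (Ico (u * s) (u * s + s)).filter E) := by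
    intro t ht
    rw [mem_filter] at ht
    rw [mem_union]
    by_cases hlow : ∃ i, (R i).eval (t : ℤ) < W
    · left
      obtain ⟨i, hi⟩ := hlow
      rw [mem_biUnion]
      exact ⟨i, mem_univ i, mem_filter.2 ⟨ht.1, ht.2.1 i, hi⟩⟩
    · right
      push Not at hlow
      have ht1 : t ≤ A * U := by
        have h1 := mem_range.1 ht.1
        omega
      have hut : t / s ≤ A * U / s := Nat.div_le_div_right ht1
      have h3 : t / s * s ≤ t := Nat.div_mul_le_self _ _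
      have h4 : t < t / s * s + s := Nat.lt_div_mul_add hspos
      have htI : t ∈ Ico (t / s * s) (t / s * s + s) := Finset.mem_Ico.2 ⟨h3, h4⟩
      have huI : t / s * s ∈ Ico (t / s * s) (t / s * s + s) := Finset.mem_Ico.2 ⟨le_rfl, by omega⟩
      rw [mem_biUnion]
      refine ⟨t / s, ?_, mem_filter.2 ⟨htI, ht.2.2⟩⟩
      rw [hG, mem_filter]
      constructor
      · rw [mem_range]
        omega
      · intro i
        have h1 : (2 * (Z : ℝ) / w) ≤ (((R i).eval (t : ℤ) : ℤ) : ℝ) := by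
          have h2 : (2 * (Z : ℝ) / w) ≤ (W : ℝ) := by
            rw [hW]
            exact Nat.le_ceil _
          refine h2.trans ?_
          exact_mod_cast hlow i
        rw [div_le_iff₀ hwpos] at h1
        have h5 := hvar (t / s) hut i t (t / s * s) htI huI
        have h6 : |(((R i).eval (t : ℤ) : ℤ) : ℝ) - (((R i).eval ((t / s * s : ℕ) : ℤ) : ℤ) : ℝ)| * w ≤ Z := by
          have h7 : |(((R i).eval (t : ℤ) : ℤ) : ℝ) - (((R i).eval ((t / s * s : ℕ) : ℤ) : ℤ) : ℝ)| * w * w ≤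
              Z * w := by
            calc _ = |(((R i).eval (t : ℤ) : ℤ) : ℝ) - (((R i).eval ((t / s * s : ℕ) : ℤ) : ℤ) : ℝ)| * T := by
                  rw [← hw2]; ring
              _ ≤ C1 * Z := h5
              _ ≤ w * Z := mul_le_mul_of_nonneg_right (by linarith) hZ0.le
              _ = Z * w := mul_comm _ _
          exact le_of_mul_le_mul_right h7 hwpos
        have h8 : (((R i).eval (t : ℤ) : ℤ) : ℝ) - (((R i).eval ((t / s * s : ℕ) : ℤ) : ℤ) : ℝ) ≤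
            |(((R i).eval (t : ℤ) : ℤ) : ℝ) - (((R i).eval ((t / s * s : ℕ) : ℤ) : ℤ) : ℝ)| := le_abs_self _
        have h9 := mul_le_mul_of_nonneg_right h8 hw0
        nlinarith
  -- the cells
  have hbox : ∀ u ∈ G, (((Ico (u * s) (u * s + s)).filter E).card : ℝ) ≤ s * δ := by
    intro u hu
    rw [hG, mem_filter, mem_range, Nat.lt_succ_iff] at hu
    have huI : u * s ∈ Ico (u * s) (u * s + s) := Finset.mem_Ico.2 ⟨le_rfl, by omega⟩
    obtain ⟨v, hv⟩ : ∃ v : Fin k → ℕ, v = fun i => ((R i).eval ((u * s : ℕ) : ℤ)).toNat := ⟨_, rfl⟩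
    have hvpos : ∀ i, (0 : ℝ) < (((R i).eval ((u * s : ℕ) : ℤ) : ℤ) : ℝ) := by
      intro i
      have h1 := hu.2 i
      by_contra hc
      push Not at hc
      have h3 := mul_nonpos_of_nonneg_of_nonpos hw0 hc
      linarith
    have hvr : ∀ i, (v i : ℝ) = (((R i).eval ((u * s : ℕ) : ℤ) : ℤ) : ℝ) := by
      intro i
      have h1 : (0 : ℤ) ≤ (R i).eval ((u * s : ℕ) : ℤ) := by
        have h2 := hvpos i
        exact_mod_cast h2.le
      have h2 : ((v i : ℕ) : ℤ) = (R i).eval ((u * s : ℕ) : ℤ) := by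
        rw [hv]
        exact Int.toNat_of_nonneg h1
      rw [← h2]
      push_cast
      rfl
    have hnum : ∀ t : ℕ, t ∈ Ico (u * s) (u * s + s) → ∀ i,
        (Z : ℝ) ≤ w ^ 2 * ((q * (5 * v i / (8 * q)) : ℕ) : ℝ) ∧
        151 * ((q * (5 * v i / (8 * q)) : ℕ) : ℝ) ≤ 100 * (((R i).eval (t : ℤ) : ℤ) : ℝ) ∧
        100 * (((R i).eval (t : ℤ) : ℤ) : ℝ) < 168 * ((q * (5 * v i / (8 * q)) : ℕ) : ℝ) := by
      intro t ht i
      have h1 := r20_M q (v i) hq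
      refine r20_num w C1 (Z : ℝ) (v i) (((R i).eval (t : ℤ) : ℤ) : ℝ) _ q hC1r hwC ?_ ?_ (by linarith) hqZ
        ?_ h1.1 h1.2
      · rw [hvr i]
        exact hvpos i
      · rw [hvr i]
        exact hu.2 i
      · rw [hvr i, hw2]
        exact hvar u hu.1 i t (u * s) ht huI
    refine hE (fun i => q * (5 * v i / (8 * q))) (u * s) s (fun i => dvd_mul_right _ _) hs1 ?_ ?_ hs2 hsUn
      (hcell2 u hu.1) ?_
    · intro i
      have h1 := (hnum (u * s) huI i).1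
      rw [hw2] at h1
      exact h1
    · intro i
      have h1 := (r20_M q (v i) hq).1
      have h2 : (v i : ℝ) ≤ C1 * Z := by
        rw [hvr i]
        have h3 := (hV k U R hUpos (fun i => (hR i).1.le) hCb i (u * s) (u * s)
          (by have := hcell2 u hu.1; omega) (by have := hcell2 u hu.1; omega)).2
        have h4 : (R i).eval ((u * s : ℕ) : ℤ) ≤ V * (U : ℤ) ^ D := (le_abs_self _).trans h3
        have h5 : (((R i).eval ((u * s : ℕ) : ℤ) : ℤ) : ℝ) ≤ ((V * (U : ℤ) ^ D : ℤ) : ℝ) := Int.cast_le.2 h4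
        push_cast at h5
        calc _ ≤ (V : ℝ) * (U : ℝ) ^ D := by
              push_cast
              exact h5
          _ ≤ V * (A * Z) := mul_le_mul_of_nonneg_left hUZr (by positivity)
          _ = C1 * Z := by
            rw [hC1]
            push_cast
            ring
      have h15 : (C1 : ℝ) ≤ Cv := by exact_mod_cast hCb1
      have h16 : (C1 : ℝ) * Z ≤ Cv * Z := mul_le_mul_of_nonneg_right h15 hZ0.le
      have h17 : (0 : ℝ) ≤ v i := Nat.cast_nonneg _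
      linarith
    · intro t ht i
      have h1 := hnum t ht i
      have h2 := h1.2.1
      have h3 := h1.2.2
      have h4 : ((151 * ((q * (5 * v i / (8 * q)) : ℕ) : ℤ) : ℤ) : ℝ) ≤ ((100 * (R i).eval (t : ℤ) : ℤ) : ℝ) := by
        push_cast
        push_cast at h2
        exact h2
      have h5 : ((100 * (R i).eval (t : ℤ) : ℤ) : ℝ) < ((168 * ((q * (5 * v i / (8 * q)) : ℕ) : ℤ) : ℤ) : ℝ) := by
        push_cast
        push_cast at h3
        exact h3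
      exact ⟨Int.cast_le.1 h4, Int.cast_lt.1 h5⟩
  -- the low values
  obtain ⟨x, hx⟩ : ∃ x : ℝ, x = T ^ (-(1 / (2 * (D : ℝ)))) := ⟨_, rfl⟩
  have hx0 : 0 < x := by rw [hx]; exact Real.rpow_pos_of_pos hT0 _
  have hxD : x ^ D * w = 1 := by
    have hD0 : (D : ℝ) ≠ 0 := by
      have : (1 : ℝ) ≤ D := by exact_mod_cast hD
      linarith
    rw [hx, hw, Real.sqrt_eq_rpow, ← Real.rpow_natCast, ← Real.rpow_mul hT0.le, ← Real.rpow_add hT0]
    have h1 : -(1 / (2 * (D : ℝ))) * (D : ℝ) + 1 / 2 = 0 := by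
      field_simp
      ring
    rw [h1, Real.rpow_zero]
  have hK1 : (1 : ℝ) ≤ 3 * C6 * A := by
    have h1 : 1 ≤ 3 * C6 * A := Nat.mul_pos (Nat.mul_pos (by norm_num) hC61) hA
    exact_mod_cast h1
  have hlowc : ∀ i, (((range (A * U + 1)).filter
        fun t : ℕ => 0 ≤ (R i).eval (t : ℤ) ∧ (R i).eval (t : ℤ) < W).card : ℝ) ≤
      3 * C6 * A * (U * x) := by
    intro i
    have hW1 : 1 ≤ W := by
      rw [hW]
      exact Nat.ceil_pos.2 (by positivity)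
    have h1 := hC6 (R i) (hR i).1 W ((range (A * U + 1)).filter
        fun t : ℕ => 0 ≤ (R i).eval (t : ℤ) ∧ (R i).eval (t : ℤ) < W) hW1 (by
      intro t ht
      rw [mem_filter] at ht
      rw [abs_of_nonneg ht.2.1]
      exact ht.2.2.le)
    have h2 : (W : ℝ) < 2 * (Z : ℝ) / w + 1 := by
      rw [hW]
      exact Nat.ceil_lt_add_one (by positivity)
    have h3 : (1 : ℝ) ≤ (Z : ℝ) / w := by
      rw [le_div_iff₀ hwpos, one_mul]
      exact hwZ
    have h4 : (W : ℝ) ≤ 3 * (Z / w) := by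
      have h6 : 2 * (Z : ℝ) / w = 2 * ((Z : ℝ) / w) := by ring
      rw [h6] at h2
      linarith
    have h5 : (((range (A * U + 1)).filter
        fun t : ℕ => 0 ≤ (R i).eval (t : ℤ) ∧ (R i).eval (t : ℤ) < W).card : ℝ) ^ D ≤ C6 * W := by
      exact_mod_cast h1
    have h6 : (C6 : ℝ) * W ≤ (3 * C6 * A * (U * x)) ^ D := by
      have h7 : (3 * C6 * A * (U * x)) ^ D = (3 * C6 * A : ℝ) ^ D * ((U : ℝ) ^ D * x ^ D) := by
        rw [mul_pow, mul_pow (U : ℝ) x]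
      have h8 : (3 * C6 * A : ℝ) ≤ (3 * C6 * A : ℝ) ^ D := le_self_pow₀ hK1 (by omega)
      have h9 : x ^ D = 1 / w := by
        rw [eq_div_iff hwpos.ne']
        exact hxD
      rw [h7, h9]
      calc (C6 : ℝ) * W ≤ C6 * (3 * (Z / w)) := mul_le_mul_of_nonneg_left h4 (by positivity)
        _ ≤ C6 * (3 * ((A * (U : ℝ) ^ D) / w)) := by
            have h10 : (Z : ℝ) / w ≤ (A * (U : ℝ) ^ D) / w := div_le_div_of_nonneg_right hZUr hwpos.le
            exact mul_le_mul_of_nonneg_left (by linarith) (by positivity)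
        _ = (3 * C6 * A : ℝ) * ((U : ℝ) ^ D * (1 / w)) := by ring
        _ ≤ (3 * C6 * A : ℝ) ^ D * ((U : ℝ) ^ D * (1 / w)) := mul_le_mul_of_nonneg_right h8 (by positivity)
    exact le_of_pow_le_pow_left₀ (by omega) (by positivity) (h5.trans h6)
  have hboxs : ∑ u ∈ G, (((Ico (u * s) (u * s + s)).filter E).card : ℝ) ≤ 2 * A * (U * δ) := by
    have h3 := Finset.sum_le_sum hbox
    rw [Finset.sum_const, nsmul_eq_mul] at h3
    have h4 : G.card ≤ A * U / s + 1 := by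
      rw [hG]
      refine (Finset.card_filter_le _ _).trans (le_of_eq ?_)
      rw [card_range]
    have h5 : G.card * s ≤ 2 * A * U := by
      have h7 : A * U / s * s ≤ A * U := Nat.div_mul_le_self _ _
      have h8 : 1 * U ≤ A * U := Nat.mul_le_mul_right _ hA
      calc G.card * s ≤ (A * U / s + 1) * s := Nat.mul_le_mul_right _ h4
        _ = A * U / s * s + s := by ring
        _ ≤ A * U + A * U := by omega
        _ = 2 * A * U := by ring
    have h6 : (G.card : ℝ) * s ≤ 2 * A * U := by exact_mod_cast h5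
    calc _ ≤ (G.card : ℝ) * (s * δ) := h3
      _ = (G.card * s) * δ := by ring
      _ ≤ (2 * A * U) * δ := mul_le_mul_of_nonneg_right h6 hδ
      _ = 2 * A * (U * δ) := by ring
  -- the sums
  have hcard := Finset.card_le_card hsub
  have hfin : (((range (A * U + 1)).filter fun t : ℕ => (∀ i, 0 ≤ (R i).eval (t : ℤ)) ∧ E t).card : ℝ) ≤
      ∑ i : Fin k, (((range (A * U + 1)).filter
        fun t : ℕ => 0 ≤ (R i).eval (t : ℤ) ∧ (R i).eval (t : ℤ) < W).card : ℝ) +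
      ∑ u ∈ G, (((Ico (u * s) (u * s + s)).filter E).card : ℝ) := by
    have h1 := hcard.trans ((Finset.card_union_le _ _).trans
      (add_le_add Finset.card_biUnion_le Finset.card_biUnion_le))
    exact_mod_cast h1
  have h1 : ∑ i : Fin k, (((range (A * U + 1)).filter
        fun t : ℕ => 0 ≤ (R i).eval (t : ℤ) ∧ (R i).eval (t : ℤ) < W).card : ℝ) ≤
      k * (3 * C6 * A * (U * x)) := by
    refine (Finset.sum_le_sum fun i _ => hlowc i).trans (le_of_eq ?_)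
    rw [Finset.sum_const, Finset.card_univ, Fintype.card_fin, nsmul_eq_mul]
  have h2 : ((k * (3 * C6 * A) : ℕ) : ℝ) ≤ Cv := by exact_mod_cast hCc
  push_cast at h2
  have h3 : (2 * A : ℝ) ≤ Cv := by exact_mod_cast hCf
  rw [← hx]
  have hUx : 0 ≤ (U : ℝ) * x := by positivity
  have hUδ : 0 ≤ (U : ℝ) * δ := by positivity
  calc _ ≤ k * (3 * C6 * A * (U * x)) + 2 * A * (U * δ) := hfin.trans (add_le_add h1 hboxs)
    _ = (k * (3 * C6 * A)) * (U * x) + 2 * A * (U * δ) := by ring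
    _ ≤ Cv * (U * x) + Cv * (U * δ) :=
        add_le_add (mul_le_mul_of_nonneg_right h2 hUx) (mul_le_mul_of_nonneg_right h3 hUδ)
    _ = Cv * (x + δ) * U := by ring

end Pool.Agent.HPG
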